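import Pool.Agent.K7.H78.MZ.Tup

/-!
# MP_154526_nt: small relations between almost all words and products are double shuffle relations

Let `u_j`, `v_j`, `j < m`, be words of `H^0` of weights `p - q_j` and `q_j ≤ p / 2` (`q_j = 0` and `v_j = 1` is allowed), and
consider the elements `f = ∑ a_j (u_j * v_j) + b_j (u_j sh v_j)` of weight `p` (`*` the stuffle product, `sh` the shuffle
product) with integers `|a_j|, |b_j| ≤ B`. For all but a proportion `C m ^ 2 (1 + log (m B)) / √p` of the families of words
the only elements of this kind in the kernel of `Z` are the combinations of the double shuffle elements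
`u_j sh v_j - u_j * v_j`; and `|Z f|` is at least `1 / m` times the largest of the `Z (u_j) Z (v_j)` with `a_j + b_j ≠ 0`.
The height `B` may be `exp (p ^ (1 / 2 - ε))`, and no condition is made on the letters of the words.

The reason: exchanging a letter `x` of a word with a letter `y` further on, with at least a quarter of the letters between
them, increases the multiple zeta value by a constant factor (`zv_swap` in the helper file `Wrd.lean`). This is proved with
the iterated integral over `r_1 < ⋯ < r_p` of the densities `(1 + e ^ (-r))⁻¹` (letter `x`) and `(1 + e ^ r)⁻¹` (letter `y`):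
the exchange multiplies the integrand by `e ^ (s - r)`, `r` and `s` the places of the two letters, and an entropy argument
shows that `s - r` is smaller than a constant only on a small part of the integral. So the logarithm of the value of a
random word increases by a constant along the edges of large cubes, and is not concentrated, by Sperner's theorem.
-/

set_option autoImplicit false

namespace Pool.Agent.Results.MP_154526_nt.AlmostAllWords

/-- `trunc [s_1, ..., s_r] m` is the sum of `∏ k_i ^ (-s_i)` over `m > k_1 > ... > k_r ≥ 1` -/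
noncomputable def trunc : List ℕ → ℕ → ℝ
  | [], _ => 1
  | s :: l, m => ∑ j ∈ Finset.Ico 1 m, trunc l j / (j : ℝ) ^ s

/-- the multiple zeta value `ζ(s_1, ..., s_r)`, `s_1` belongs to the largest variable -/
noncomputable def mzv : List ℕ → ℝ
  | [] => 1
  | s :: l => ∑' k : ℕ, trunc l (k + 1) / ((k + 1 : ℕ) : ℝ) ^ s

/-- the word `y_{k_1} ... y_{k_t}`, where `y_k = x ^ (k - 1) y`, `x = false`, `y = true` -/
def word : List ℕ → List Bool
  | [] => []
  | k :: l => List.replicate (k - 1) false ++ true :: word l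

/-- `index 0 w` is the list of the `k_i` for the word `w = y_{k_1} ... y_{k_t}` -/
def index : ℕ → List Bool → List ℕ
  | _, [] => []
  | c, true :: u => (c + 1) :: index 0 u
  | c, false :: u => index (c + 1) u

/-- the list of the shuffles of two words -/
def shuffles : List Bool → List Bool → List (List Bool)
  | [], v => [v]
  | a :: u, [] => [a :: u]
  | a :: u, b :: v => (shuffles u (b :: v)).map (a :: ·) ++ (shuffles (a :: u) v).map (b :: ·)
termination_by u v => u.length + v.length

/-- the list of the indices in the stuffle product of two indices -/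
def stuffles : List ℕ → List ℕ → List (List ℕ)
  | [], l => [l]
  | i :: k, [] => [i :: k]
  | i :: k, j :: l => (stuffles k (j :: l)).map (i :: ·) ++ (stuffles (i :: k) l).map (j :: ·) ++
      (stuffles k l).map ((i + j) :: ·)
termination_by k l => k.length + l.length

/-- integer combinations of words -/
abbrev H : Type := List Bool →₀ ℤ

/-- the sum of a list of words -/
noncomputable def total (L : List (List Bool)) : H := (L.map fun w => Finsupp.single w 1).sum

/-- the linear map `Z` with `Z (y_{k_1} ... y_{k_t}) = ζ(k_1, ..., k_t)` -/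
noncomputable def Z : H →ₗ[ℤ] ℝ := Finsupp.linearCombination ℤ fun w => mzv (index 0 w)

/-- the shuffle product of two words -/
noncomputable def shuffle (u v : List Bool) : H := total (shuffles u v)

/-- the stuffle product of two words -/
noncomputable def stuffle (u v : List Bool) : H := total ((stuffles (index 0 u) (index 0 v)).map word)

/-- the double shuffle element -/
noncomputable def doubleShuffle (u v : List Bool) : H := shuffle u v - stuffle u v

/-- the words of weight `p` in `H^0`: the empty word (`p = 0`) and the words `x ... y` of length `p` -/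
def Words (p : ℕ) : Set (List Bool) :=
  {w | w.length = p ∧ (w = [] ∨ (w.head? = some false ∧ w.getLast? = some true))}

/-- the families of pairs of words `u_j`, `v_j` of weights `p - q_j` and `q_j`, `j < m` -/
def Families (m p : ℕ) (q : Fin m → ℕ) : Set (Fin m → List Bool × List Bool) :=
  {x | ∀ j, (x j).1 ∈ Words (p - q j) ∧ (x j).2 ∈ Words (q j)}

/-- the element `∑ a_j (u_j * v_j) + b_j (u_j sh v_j)` -/
noncomputable def element {m : ℕ} (x : Fin m → List Bool × List Bool) (a b : Fin m → ℤ) : H :=
  ∑ j, (a j • stuffle (x j).1 (x j).2 + b j • shuffle (x j).1 (x j).2)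

/-- all elements of height at most `B` are combinations of the double shuffle elements in the kernel of `Z`, or have a
large value -/
def Good {m : ℕ} (x : Fin m → List Bool × List Bool) (B : ℝ) : Prop :=
  ∀ a b : Fin m → ℤ, (∀ j, |(a j : ℝ)| ≤ B ∧ |(b j : ℝ)| ≤ B) →
    (element x a b = ∑ j, (-a j) • doubleShuffle (x j).1 (x j).2 ∧ Z (element x a b) = 0) ∨
    (0 < |Z (element x a b)| ∧ ∀ j, a j + b j ≠ 0 →
      mzv (index 0 (x j).1) * mzv (index 0 (x j).2) ≤ m * |Z (element x a b)|)

lemma trunc_eq (l : List ℕ) : ∀ m, trunc l m = Pool.Agent.K7.H78.MZ.trunc l m := by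
  induction l with
  | nil => intro m; rw [trunc, Pool.Agent.K7.H78.MZ.trunc]
  | cons s l ih =>
    intro m
    rw [trunc, Pool.Agent.K7.H78.MZ.trunc]
    exact Finset.sum_congr rfl fun j _ => by rw [ih]

lemma mzv_eq : mzv = Pool.Agent.K7.H78.MZ.mzv := by
  funext l
  cases l with
  | nil => rw [mzv, Pool.Agent.K7.H78.MZ.mzv]
  | cons s l =>
    rw [mzv, Pool.Agent.K7.H78.MZ.mzv]
    exact tsum_congr fun k => by rw [trunc_eq]

lemma word_eq : word = Pool.Agent.K7.H78.MZ.word := by
  funext l
  induction l with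
  | nil => rfl
  | cons k l ih => rw [word, Pool.Agent.K7.H78.MZ.word, ih]

lemma index_eq : index = Pool.Agent.K7.H78.MZ.index := by
  funext c u
  induction u generalizing c with
  | nil => rw [index, Pool.Agent.K7.H78.MZ.index]
  | cons b u ih =>
    cases b with
    | true => rw [index, Pool.Agent.K7.H78.MZ.index, ih]
    | false => rw [index, Pool.Agent.K7.H78.MZ.index, ih]

lemma shuffles_eq (u v : List Bool) : shuffles u v = Pool.Agent.TH507.DS.sh u v := by
  induction u, v using shuffles.induct with
  | case1 v => rw [shuffles, Pool.Agent.TH507.DS.sh]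
  | case2 a u => rw [shuffles, Pool.Agent.TH507.DS.sh]
  | case3 a u b v ih1 ih2 => rw [shuffles, Pool.Agent.TH507.DS.sh, ih1, ih2]

lemma stuffles_eq (k l : List ℕ) : stuffles k l = Pool.Agent.H447R2.MZ.st k l := by
  induction k, l using stuffles.induct with
  | case1 l => rw [stuffles, Pool.Agent.H447R2.MZ.st]
  | case2 i k => rw [stuffles, Pool.Agent.H447R2.MZ.st]
  | case3 i k j l ih1 ih2 ih3 => rw [stuffles, Pool.Agent.H447R2.MZ.st, ih1, ih2, ih3]

lemma Z_total (L : List (List Bool)) : Z (total L) = (L.map fun w => mzv (index 0 w)).sum := by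
  rw [total, map_list_sum, List.map_map]
  congr 1
  refine List.map_congr_left fun w _ => ?_
  simp [Z]

lemma Z_shuffle {u v : List Bool} (hu : Pool.Agent.K7.H78.MZ.AdmW u) (hv : Pool.Agent.K7.H78.MZ.AdmW v) :
    Z (shuffle u v) = mzv (index 0 u) * mzv (index 0 v) := by
  rw [shuffle, Z_total, shuffles_eq, mzv_eq, index_eq]
  exact (Pool.Agent.K7.H78.MZ.zv_sh hu hv).symm

lemma Z_stuffle {u v : List Bool} (hu : Pool.Agent.K7.H78.MZ.AdmW u) (hv : Pool.Agent.K7.H78.MZ.AdmW v) :
    Z (stuffle u v) = mzv (index 0 u) * mzv (index 0 v) := by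
  rw [stuffle, Z_total, stuffles_eq, mzv_eq, index_eq, word_eq, List.map_map,
    Pool.Agent.K7.H78.MZ.zv_st hu.adm hv.adm]
  congr 1
  refine List.map_congr_left fun k hk => ?_
  have h1 := Pool.Agent.H447R2.MZ.st_adm _ _ hu.adm hv.adm k hk
  simp only [Function.comp]
  rw [← Pool.Agent.K7.H78.MZ.zv, Pool.Agent.K7.H78.MZ.zv_Zb (Pool.Agent.K7.H78.MZ.Vd_word k),
    Pool.Agent.K7.H78.MZ.mzv_Zb k h1.1]

lemma words_eq (p : ℕ) : Words p = (Pool.Agent.K7.H78.MZ.Wf p : Set (List Bool)) := by
  ext w
  rw [Finset.mem_coe, Pool.Agent.K7.H78.MZ.mem_Wf]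
  rfl

open Pool.Agent.K7.H78.MZ (Wf mem_Wf card_Wf zv) in
/-- the families as a finite set -/
lemma families_eq (m p : ℕ) (q : Fin m → ℕ) : Families m p q =
    (Fintype.piFinset (fun j => Wf (p - q j) ×ˢ Wf (q j)) : Set (Fin m → List Bool × List Bool)) := by
  ext x
  rw [Finset.mem_coe, Fintype.mem_piFinset]
  refine forall_congr' fun j => ?_
  rw [Finset.mem_product, words_eq, words_eq]
  rfl

open Pool.Agent.K7.H78.MZ (Wf mem_Wf card_Wf zv anti_Wf AdmW) in
/-- the value of a random pair is not concentrated -/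
lemma pair_anti (p q : ℕ) (hp : 2 ≤ p) (hq : 2 * q ≤ p) (hq1 : q ≠ 1) (lam : ℝ) (hl : 0 ≤ lam) (c : ℝ) :
    (((Wf (p - q) ×ˢ Wf q).filter fun y => |Real.log (zv y.1 * zv y.2) - c| ≤ lam).card : ℝ) ≤
      ((12000 * lam + 1) * (6 / Real.sqrt p)) * (Wf (p - q) ×ˢ Wf q).card := by
  have hp0 : (0 : ℝ) < p := by positivity
  have hpq : 2 ≤ p - q := by omega
  have hpq0 : (0 : ℝ) < (p - q : ℕ) := by
    have : 0 < p - q := by omega
    exact_mod_cast this
  have h1 : ((Wf (p - q) ×ˢ Wf q).filter fun y => |Real.log (zv y.1 * zv y.2) - c| ≤ lam) ⊆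
      (Wf q).biUnion fun v => ((Wf (p - q)).filter fun u => (c - Real.log (zv v) - lam) ≤ Real.log (zv u) ∧
        Real.log (zv u) ≤ (c - Real.log (zv v) - lam) + 2 * lam).image fun u => (u, v) := by
    rintro ⟨u, v⟩ hy
    obtain ⟨h2, h3⟩ := Finset.mem_filter.1 hy
    obtain ⟨hu, hv⟩ := Finset.mem_product.1 h2
    simp only at hu hv h3
    have hu' := ((mem_Wf _ _).1 hu).2.pos
    have hv' := ((mem_Wf _ _).1 hv).2.pos
    rw [Real.log_mul hu'.ne' hv'.ne'] at h3
    have h4 := abs_le.1 h3
    refine Finset.mem_biUnion.2 ⟨v, hv, Finset.mem_image.2 ⟨u, Finset.mem_filter.2 ⟨hu, ?_, ?_⟩, rfl⟩⟩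
    · linarith [h4.1]
    · linarith [h4.2]
  have h2 := (Finset.card_le_card h1).trans Finset.card_biUnion_le
  have h3 : ∀ v ∈ Wf q, ((((Wf (p - q)).filter fun u => (c - Real.log (zv v) - lam) ≤ Real.log (zv u) ∧
        Real.log (zv u) ≤ (c - Real.log (zv v) - lam) + 2 * lam).image fun u => (u, v)).card : ℝ) ≤
      (12000 * lam + 1) * (6 / Real.sqrt p) * (Wf (p - q)).card := by
    intro v _
    refine le_trans (by exact_mod_cast Finset.card_image_le)
      ((anti_Wf (p - q) hpq (c - Real.log (zv v) - lam) (2 * lam) (by positivity)).trans ?_)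
    refine mul_le_mul_of_nonneg_right ?_ (Nat.cast_nonneg _)
    rw [show 6000 * (2 * lam) + 1 = 12000 * lam + 1 by ring]
    refine mul_le_mul_of_nonneg_left ?_ (by positivity)
    rw [div_le_div_iff₀ (Real.sqrt_pos.2 hpq0) (Real.sqrt_pos.2 hp0)]
    have h4 : (p : ℝ) ≤ 2 * ((p - q : ℕ) : ℝ) := by exact_mod_cast (by omega : p ≤ 2 * (p - q))
    have h5 : 4 * Real.sqrt p = Real.sqrt (16 * p) := by
      rw [Real.sqrt_mul (by norm_num)]
      congr 1
      rw [show (16 : ℝ) = 4 ^ 2 by norm_num, Real.sqrt_sq (by norm_num)]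
    have h6 : 6 * Real.sqrt ((p - q : ℕ) : ℝ) = Real.sqrt (36 * ((p - q : ℕ) : ℝ)) := by
      rw [Real.sqrt_mul (by norm_num)]
      congr 1
      rw [show (36 : ℝ) = 6 ^ 2 by norm_num, Real.sqrt_sq (by norm_num)]
    rw [h5, h6]
    exact Real.sqrt_le_sqrt (by linarith)
  calc (((Wf (p - q) ×ˢ Wf q).filter fun y => |Real.log (zv y.1 * zv y.2) - c| ≤ lam).card : ℝ)
      ≤ ((∑ v ∈ Wf q, (((Wf (p - q)).filter fun u => (c - Real.log (zv v) - lam) ≤ Real.log (zv u) ∧
        Real.log (zv u) ≤ (c - Real.log (zv v) - lam) + 2 * lam).image fun u => (u, v)).card : ℕ) : ℝ) := by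
        exact_mod_cast h2
    _ ≤ ∑ _v ∈ Wf q, (12000 * lam + 1) * (6 / Real.sqrt p) * (Wf (p - q)).card := by
        push_cast
        exact Finset.sum_le_sum h3
    _ = _ := by
        rw [Finset.sum_const, nsmul_eq_mul, Finset.card_product]
        push_cast
        ring

open Pool.Agent.K7.H78.MZ (Wf mem_Wf card_Wf zv dominate AdmW) in
/-- separated families are good -/
lemma good_of_sep {m p : ℕ} {q : Fin m → ℕ} {x : Fin m → List Bool × List Bool} (hx : x ∈ Families m p q)
    (B : ℝ) (hB : 1 ≤ B) (hsep : ∀ j l, j ≠ l → Real.log (m * (2 * B)) <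
      |Real.log (zv (x j).1 * zv (x j).2) - Real.log (zv (x l).1 * zv (x l).2)|) : Good x B := by
  classical
  have hadm : ∀ j, AdmW (x j).1 ∧ AdmW (x j).2 := fun j => ⟨(hx j).1.2, (hx j).2.2⟩
  intro a b hab
  have hmz : ∀ w, mzv (index 0 w) = zv w := fun w => by rw [mzv_eq, index_eq]; rfl
  have hZ : Z (element x a b) = ∑ j, ((a j + b j : ℤ) : ℝ) * (zv (x j).1 * zv (x j).2) := by
    rw [element, map_sum]
    refine Finset.sum_congr rfl fun j _ => ?_
    rw [map_add, map_zsmul, map_zsmul, Z_stuffle (hadm j).1 (hadm j).2, Z_shuffle (hadm j).1 (hadm j).2,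
      zsmul_eq_mul, zsmul_eq_mul, hmz, hmz]
    push_cast
    ring
  by_cases hne : ∃ j, a j + b j ≠ 0
  · right
    have h1 : ∀ j, a j + b j ≠ 0 →
        mzv (index 0 (x j).1) * mzv (index 0 (x j).2) ≤ m * |Z (element x a b)| := by
      intro j hj
      rw [hZ, hmz, hmz]
      refine dominate (fun j => zv (x j).1 * zv (x j).2) (fun j => mul_pos (hadm j).1.pos (hadm j).2.pos)
        (2 * B) (by linarith) hsep (fun j => a j + b j) (fun j => ?_) j hj
      push_cast
      have h2 := hab j
      calc |(a j : ℝ) + b j| ≤ |(a j : ℝ)| + |(b j : ℝ)| := abs_add_le _ _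
        _ ≤ 2 * B := by linarith [h2.1, h2.2]
    refine ⟨?_, h1⟩
    obtain ⟨j, hj⟩ := hne
    have h2 := h1 j hj
    rw [hmz, hmz] at h2
    have h3 : 0 < zv (x j).1 * zv (x j).2 := mul_pos (hadm j).1.pos (hadm j).2.pos
    by_contra h4
    have h5 : |Z (element x a b)| = 0 := le_antisymm (not_lt.1 h4) (abs_nonneg _)
    rw [h5, mul_zero] at h2
    linarith
  · left
    push Not at hne
    constructor
    · rw [element]
      refine Finset.sum_congr rfl fun j _ => ?_
      have h2 : b j = -a j := by
        have := hne j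
        linarith
      rw [h2, doubleShuffle, smul_sub, neg_smul, neg_smul]
      abel
    · rw [hZ]
      refine Finset.sum_eq_zero fun j _ => ?_
      rw [hne j, Int.cast_zero, zero_mul]

/-- **Theorem.** There is a constant `C` such that for all `m ≥ 1`, `p ≥ 2`, `B ≥ 1` and all weights `q_j ≤ p / 2`,
`q_j ≠ 1`, all but a proportion `C m ^ 2 (1 + log (m B)) / √p` of the families of words `u_j`, `v_j` of `H^0` of weights
`p - q_j` and `q_j`, `j < m`, have the following property: for all integers `|a_j|, |b_j| ≤ B` the element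
`f = ∑ a_j (u_j * v_j) + b_j (u_j sh v_j)` is the combination `-∑ a_j (u_j sh v_j - u_j * v_j)` of double shuffle elements,
with `Z f = 0`, or `|Z f| > 0` and `Z (u_j) Z (v_j) ≤ m |Z f|` for all `j` with `a_j + b_j ≠ 0`. The families are finite in
number. -/
theorem result :
    ∃ C : ℝ, 0 < C ∧ ∀ (m p : ℕ) (B : ℝ), 1 ≤ m → 2 ≤ p → 1 ≤ B →
      ∀ q : Fin m → ℕ, (∀ j, 2 * q j ≤ p ∧ q j ≠ 1) →
      (Families m p q).Finite ∧ (Families m p q).Nonempty ∧
      ({x ∈ Families m p q | ¬ Good x B}.ncard : ℝ) ≤
        C * (m : ℝ) ^ 2 * (1 + Real.log (m * B)) / Real.sqrt p * (Families m p q).ncard := by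
  classical
  refine ⟨72006, by norm_num, ?_⟩
  · intro m p B hm hp hB q hq
    set S : Fin m → Finset (List Bool × List Bool) := fun j =>
      Pool.Agent.K7.H78.MZ.Wf (p - q j) ×ˢ Pool.Agent.K7.H78.MZ.Wf (q j) with hS
    have hF : Families m p q = (Fintype.piFinset S : Set (Fin m → List Bool × List Bool)) :=
      families_eq m p q
    have hne : ∀ n, n ≠ 1 → (Pool.Agent.K7.H78.MZ.Wf n).Nonempty := by
      intro n hn
      match n with
      | 0 => exact ⟨[], by rw [Pool.Agent.K7.H78.MZ.mem_Wf]; exact ⟨rfl, Or.inl rfl⟩⟩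
      | 1 => exact absurd rfl hn
      | k + 2 =>
        rw [← Finset.card_pos, Pool.Agent.K7.H78.MZ.card_Wf]
        positivity
    refine ⟨?_, ?_, ?_⟩
    · rw [hF]
      exact Finset.finite_toSet _
    · rw [hF, Finset.coe_nonempty, Fintype.piFinset_nonempty]
      intro j
      have := hq j
      exact (hne _ (by omega)).product (hne _ this.2)
    · set lam : ℝ := Real.log (m * (2 * B)) with hlam
      have hm1 : (1 : ℝ) ≤ m := by exact_mod_cast hm
      have hmB : 1 ≤ m * B := by nlinarith
      have hlog : 0 ≤ Real.log (m * B) := Real.log_nonneg hmB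
      have hlam1 : lam ≤ 1 + Real.log (m * B) := by
        have h1 : (m : ℝ) * (2 * B) = 2 * (m * B) := by ring
        rw [hlam, h1, Real.log_mul (by norm_num) (by positivity)]
        have := Real.log_two_lt_d9
        linarith
      have hlam0 : 0 ≤ lam := Real.log_nonneg (by nlinarith)
      have hp0 : (0 : ℝ) < p := by positivity
      have hs : (0 : ℝ) < Real.sqrt p := Real.sqrt_pos.2 hp0
      have h1 : {x ∈ Families m p q | ¬ Good x B} ⊆
          (((Fintype.piFinset S).filter fun x => ∃ j l, j ≠ l ∧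
            |Real.log (Pool.Agent.K7.H78.MZ.zv (x j).1 * Pool.Agent.K7.H78.MZ.zv (x j).2) -
              Real.log (Pool.Agent.K7.H78.MZ.zv (x l).1 * Pool.Agent.K7.H78.MZ.zv (x l).2)| ≤ lam :
              Finset (Fin m → List Bool × List Bool)) : Set (Fin m → List Bool × List Bool)) := by
        rintro x ⟨hx, hbad⟩
        rw [Finset.mem_coe, Finset.mem_filter]
        refine ⟨by rw [← Finset.mem_coe, ← hF]; exact hx, ?_⟩
        by_contra hcon
        push Not at hcon
        exact hbad (good_of_sep hx B hB hcon)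
      have h2 := Set.ncard_le_ncard h1 (Finset.finite_toSet _)
      rw [Set.ncard_coe_finset] at h2
      have h3 := Pool.Agent.K7.H78.MZ.sep_count S
        (fun _ y => Real.log (Pool.Agent.K7.H78.MZ.zv y.1 * Pool.Agent.K7.H78.MZ.zv y.2)) lam
        ((12000 * lam + 1) * (6 / Real.sqrt p))
        (fun j c => pair_anti p (q j) hp (hq j).1 (hq j).2 lam hlam0 c) (by positivity)
      have hcard : (Families m p q).ncard = (Fintype.piFinset S).card := by
        rw [hF, Set.ncard_coe_finset]
      rw [hcard]
      refine le_trans (by exact_mod_cast h2) (h3.trans ?_)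
      refine mul_le_mul_of_nonneg_right ?_ (Nat.cast_nonneg _)
      have h4 : (12000 * lam + 1) * (6 / Real.sqrt p) ≤ 72006 * (1 + Real.log (m * B)) / Real.sqrt p := by
        rw [mul_div_assoc', div_le_div_iff_of_pos_right hs]
        nlinarith
      calc (m : ℝ) ^ 2 * ((12000 * lam + 1) * (6 / Real.sqrt p))
          ≤ (m : ℝ) ^ 2 * (72006 * (1 + Real.log (m * B)) / Real.sqrt p) :=
            mul_le_mul_of_nonneg_left h4 (by positivity)
        _ = _ := by ring

end Pool.Agent.Results.MP_154526_nt.AlmostAllWords
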