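import Mathlib
import Pool.Agent.K7.H57.Suf.DSh

/-!
# MP_154526_nt: small relations between products of `(xy)^j` with words `v s`, `s` a long common last part

Let `V` be a finite set of words in `x`, `y` which are empty or begin with `x`, let `J ≥ 0`, and let `s` be ANY word in
`H^1` with `d` letters `y` (such that the words `v s`, `v ∈ V`, belong to `H^0`). Consider the elements
`f = ∑ a_{j,v} ((xy)^j * v s) + b_{j,v} ((xy)^j sh v s)` of `H^0`, `j ≤ J`, `v ∈ V` (`*` the stuffle product, `sh` the
shuffle product; for `j = 0` both are the word `v s`), with integers `|a_{j,v}|, |b_{j,v}| ≤ κ d ^ γ`. If `Z f = 0`, or only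
`|Z f| < κ d ^ (-1) ζ(M, s)`, then `a + b = 0`, so that `f` is an integer combination of double shuffle elements. Here
`κ, γ > 0` and `M` depend only on `V` and `J`, not on the word `s`.

Nothing is assumed on the arguments of `s`: they may be `1` or bounded (the theorems of the starting files for this problem
need growing arguments). The proof expands the tails `n ^ (-j) ∑_{m_1 > ... > m_r > n} ∏ m_i ^ (- u_i)` of the multiple
zeta value of `v = y_u x^j` in the functions `n! k! / (n + k)!` of `n`; the coefficients are the differences of the harmonic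
sums of the dual word, and the first one which is not zero determines the sign of the linear form for all `n ≥ d`. The
powers of `π ^ 2` are separated by the transcendence measure of `π` of the starting library.
-/

set_option autoImplicit false

namespace Pool.Agent.Results.MP_154526_nt.LongLastPart

/-- `trunc [s_1, ..., s_r] m` is the sum of `∏ k_i ^ (-s_i)` over `m > k_1 > ... > k_r ≥ 1` -/
noncomputable def trunc : List ℕ → ℕ → ℝ
  | [], _ => 1
  | s :: l, m => ∑ j ∈ Finset.Ico 1 m, trunc l j / (j : ℝ) ^ s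

/-- the multiple zeta value `ζ(s_1, ..., s_r)`, `s_1` belongs to the largest variable -/
noncomputable def mzv : List ℕ → ℝ
  | [] => 1
  | s :: l => ∑' k : ℕ, trunc l (k + 1) / ((k + 1 : ℕ) : ℝ) ^ s

/-- the word `y_{k_1} ... y_{k_t}`, where `y_k = x ^ (k - 1) y`, `x = false`, `y = true` -/
def word : List ℕ → List Bool
  | [] => []
  | k :: l => List.replicate (k - 1) false ++ true :: word l

/-- `index 0 w` is the list of the `k_i` for the word `w = y_{k_1} ... y_{k_t}` -/
def index : ℕ → List Bool → List ℕ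
  | _, [] => []
  | c, true :: u => (c + 1) :: index 0 u
  | c, false :: u => index (c + 1) u

/-- the list of the shuffles of two words -/
def shuffles : List Bool → List Bool → List (List Bool)
  | [], v => [v]
  | a :: u, [] => [a :: u]
  | a :: u, b :: v => (shuffles u (b :: v)).map (a :: ·) ++ (shuffles (a :: u) v).map (b :: ·)
termination_by u v => u.length + v.length

/-- the list of the indices in the stuffle product of two indices -/
def stuffles : List ℕ → List ℕ → List (List ℕ)
  | [], l => [l]
  | i :: k, [] => [i :: k]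
  | i :: k, j :: l => (stuffles k (j :: l)).map (i :: ·) ++ (stuffles (i :: k) l).map (j :: ·) ++
      (stuffles k l).map ((i + j) :: ·)
termination_by k l => k.length + l.length

/-- integer combinations of words -/
abbrev H : Type := List Bool →₀ ℤ

/-- the sum of a list of words -/
noncomputable def total (L : List (List Bool)) : H := (L.map fun w => Finsupp.single w 1).sum

/-- the linear map `Z` with `Z (y_{k_1} ... y_{k_t}) = ζ(k_1, ..., k_t)` -/
noncomputable def Z : H →ₗ[ℤ] ℝ := Finsupp.linearCombination ℤ fun w => mzv (index 0 w)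

/-- the shuffle product of the words `y_{k_1} ... y_{k_s}` and `y_{l_1} ... y_{l_t}` -/
noncomputable def shuffle (k l : List ℕ) : H := total (shuffles (word k) (word l))

/-- the stuffle product of the words `y_{k_1} ... y_{k_s}` and `y_{l_1} ... y_{l_t}` -/
noncomputable def stuffle (k l : List ℕ) : H := total ((stuffles k l).map word)

/-- the double shuffle element -/
noncomputable def doubleShuffle (k l : List ℕ) : H := shuffle k l - stuffle k l

/-- admissible indices: all entries are at least one, the first one is at least two; the empty index is admissible -/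
def AdmissibleIndex (l : List ℕ) : Prop := (∀ a ∈ l, 1 ≤ a) ∧ ∀ a t, l = a :: t → 2 ≤ a

/-- the index `(u_1, ..., u_r, s_1 + j, s_2, ..., s_d)` of the word `v s`, where `v = y_{u_1} ... y_{u_r} x^j` is given by
the pair `(u, j)` and `s = y_{s_1} ... y_{s_d}` -/
def glue (v : List ℕ × ℕ) : List ℕ → List ℕ
  | [] => v.1
  | a :: t => v.1 ++ (a + v.2) :: t

/-- the element `∑ a_{j,v} ((xy)^j * v s) + b_{j,v} ((xy)^j sh v s)`, where `(xy)^j = y_2 ... y_2` -/
noncomputable def element (J : ℕ) (V : Finset (List ℕ × ℕ)) (s : List ℕ) (a b : ℕ → List ℕ × ℕ → ℤ) : H :=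
  ∑ j ∈ Finset.range (J + 1), ∑ v ∈ V, (a j v • stuffle (List.replicate j 2) (glue v s) +
    b j v • shuffle (List.replicate j 2) (glue v s))

lemma trunc_eq : ∀ l m, trunc l m = Pool.Agent.TH507.WD.hr l m := by
  intro l
  induction l with
  | nil => intro m; rw [trunc, Pool.Agent.TH507.WD.hr]
  | cons s l ih =>
    intro m
    rw [trunc, Pool.Agent.TH507.WD.hr]
    exact Finset.sum_congr rfl fun j _ => by rw [ih]

lemma mzv_eq : mzv = Pool.Agent.TH507.WD.mz := by
  funext l
  cases l with
  | nil => rw [mzv, Pool.Agent.TH507.WD.mz]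
  | cons s l =>
    rw [mzv, Pool.Agent.TH507.WD.mz]
    exact tsum_congr fun k => by rw [trunc_eq]

lemma word_eq : word = Pool.Agent.TH507.DS.word := by
  funext l
  induction l with
  | nil => rfl
  | cons k l ih => rw [word, Pool.Agent.TH507.DS.word, ih]

lemma index_eq : ∀ u c, index c u = Pool.Agent.TH507.DS.decA c u := by
  intro u
  induction u with
  | nil => intro c; rw [index, Pool.Agent.TH507.DS.decA]
  | cons b u ih =>
    intro c
    cases b with
    | true => rw [index, Pool.Agent.TH507.DS.decA, ih]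
    | false => rw [index, Pool.Agent.TH507.DS.decA, ih]

lemma shuffles_eq : ∀ u v, shuffles u v = Pool.Agent.TH507.DS.sh u v := by
  intro u v
  induction u, v using shuffles.induct with
  | case1 v => rw [shuffles, Pool.Agent.TH507.DS.sh]
  | case2 a u => rw [shuffles, Pool.Agent.TH507.DS.sh]
  | case3 a u b v ih1 ih2 => rw [shuffles, Pool.Agent.TH507.DS.sh, ih1, ih2]

lemma stuffles_eq : ∀ k l, stuffles k l = Pool.Agent.TH507.DS.stI k l := by
  intro k l
  induction k, l using stuffles.induct with
  | case1 l => rw [stuffles, Pool.Agent.TH507.DS.stI]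
  | case2 i k => rw [stuffles, Pool.Agent.TH507.DS.stI]
  | case3 i k j l ih1 ih2 ih3 => rw [stuffles, Pool.Agent.TH507.DS.stI, ih1, ih2, ih3]

lemma shuffle_eq (k l : List ℕ) : shuffle k l = Pool.Agent.TH507.DS.el (Pool.Agent.TH507.DS.sh
    (Pool.Agent.TH507.DS.word k) (Pool.Agent.TH507.DS.word l)) := by
  rw [shuffle, word_eq, shuffles_eq]
  rfl

lemma stuffle_eq (k l : List ℕ) : stuffle k l = Pool.Agent.TH507.DS.el ((Pool.Agent.TH507.DS.stI k l).map
    Pool.Agent.TH507.DS.word) := by
  rw [stuffle, word_eq, stuffles_eq]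
  rfl

lemma Z_eq : Z = Pool.Agent.TH507.DS.Zh := by
  rw [Z, Pool.Agent.TH507.DS.Zh]
  congr 1
  funext w
  rw [mzv_eq, index_eq]

lemma Z_products {k l : List ℕ} (hk : AdmissibleIndex k) (hl : AdmissibleIndex l) :
    Z (stuffle k l) = Pool.Agent.H447R2.MZ.val k * Pool.Agent.H447R2.MZ.val l ∧
      Z (shuffle k l) = Pool.Agent.H447R2.MZ.val k * Pool.Agent.H447R2.MZ.val l := by
  rw [Z_eq, stuffle_eq, shuffle_eq]
  exact ⟨Pool.Agent.K7.H57.Suf.Zh_stuffle hk hl, Pool.Agent.K7.H57.Suf.Zh_shuffle hk hl⟩

/-- **Theorem.** Let `V` be a finite set of words `v = y_{u_1} ... y_{u_r} x^j`, `u` admissible or empty, and `J ≥ 0`. There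
are `κ, γ > 0` and `M ≥ 2` such that for all nonempty words `s = y_{s_1} ... y_{s_d}` such that the words `v s`, `v ∈ V`,
are admissible, and all integers `a_{j,v}`, `b_{j,v}` of absolute value at most `κ d ^ γ`, the element
`f = ∑_{j ≤ J, v ∈ V} a_{j,v} ((xy)^j * v s) + b_{j,v} ((xy)^j sh v s)` is the integer combination
`- ∑ a_{j,v} ((xy)^j sh v s - (xy)^j * v s)` of double shuffle elements, with `Z f = 0`, or
`|Z f| ≥ κ d ^ (-1) ζ(M, s) > 0`. -/
theorem result (V : Finset (List ℕ × ℕ)) (hV : ∀ v ∈ V, AdmissibleIndex v.1) (J : ℕ) :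
    ∃ κ γ : ℝ, 0 < κ ∧ 0 < γ ∧ ∃ M : ℕ, 2 ≤ M ∧ ∀ s : List ℕ, s ≠ [] → (∀ t ∈ s, 1 ≤ t) →
      (∀ v ∈ V, AdmissibleIndex (glue v s)) → ∀ a b : ℕ → List ℕ × ℕ → ℤ,
      (∀ j ≤ J, ∀ v ∈ V, |(a j v : ℝ)| ≤ κ * (s.length : ℝ) ^ γ ∧ |(b j v : ℝ)| ≤ κ * (s.length : ℝ) ^ γ) →
        (element J V s a b =
            ∑ j ∈ Finset.range (J + 1), ∑ v ∈ V, (-a j v) • doubleShuffle (List.replicate j 2) (glue v s) ∧
          Z (element J V s a b) = 0) ∨
        (0 < mzv (M :: s) ∧ κ * (s.length : ℝ)⁻¹ * mzv (M :: s) ≤ |Z (element J V s a b)|) := by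
  classical
  obtain ⟨κ, γ, hκ, hγ, M, hM, h⟩ := Pool.Agent.K7.H57.Suf.two_main V hV J
  refine ⟨κ / 2, γ, by positivity, hγ, M, hM, ?_⟩
  rintro s hs0 hs hadm a b hab
  obtain ⟨e, s, rfl⟩ : ∃ b t, s = b :: t := by
    cases s with
    | nil => exact absurd rfl hs0
    | cons b t => exact ⟨b, t, rfl⟩
  have he : 1 ≤ e := hs e List.mem_cons_self
  have hlen : (((e :: s).length : ℕ) : ℝ) = (s.length : ℝ) + 1 := by
    rw [List.length_cons]
    push_cast
    ring
  rw [hlen] at hab ⊢
  have hrep : ∀ j, AdmissibleIndex (List.replicate j 2) := Pool.Agent.K7.H57.Suf.adm_rep2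
  have hZ : Z (element J V (e :: s) a b) = ∑ v ∈ V, ∑ j ∈ Finset.range (J + 1), ((a j v + b j v : ℤ) : ℝ) *
      (Pool.Agent.H447R2.MZ.val (List.replicate j 2) * Pool.Agent.H447R2.MZ.val (v.1 ++ (e + v.2) :: s)) := by
    rw [element, map_sum, Finset.sum_comm]
    refine Finset.sum_congr rfl fun j _ => ?_
    rw [map_sum]
    refine Finset.sum_congr rfl fun v hv => ?_
    obtain ⟨h1, h2⟩ := Z_products (hrep j) (hadm v hv)
    rw [map_add, map_zsmul, map_zsmul, h1, h2, zsmul_eq_mul, zsmul_eq_mul, glue]
    push_cast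
    ring
  have hadmM : Pool.Agent.H447R2.MZ.Adm (M :: e :: s) := by
    refine ⟨fun x hx => ?_, fun x t h => ?_⟩
    · rcases List.mem_cons.1 hx with rfl | hx
      · omega
      · exact hs x hx
    · rw [← (List.cons.inj h).1]
      exact hM
  have hmzv : mzv (M :: e :: s) = Pool.Agent.H447R2.MZ.val (M :: e :: s) := by
    rw [mzv_eq, Pool.Agent.Q217.MZ.mz_val _ hadmM]
  by_cases hne : ∃ j ≤ J, ∃ v ∈ V, a j v + b j v ≠ 0
  · right
    have h1 := h e s he (fun t ht => hs t (List.mem_cons_of_mem _ ht)) (fun v hv hv0 => by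
      have h2 := (hadm v hv).2 (e + v.2) s (by rw [glue, hv0, List.nil_append])
      exact h2) (fun j v => a j v + b j v) (fun j hj v hv => by
        obtain ⟨h2, h3⟩ := hab j hj v hv
        push_cast
        refine (abs_add_le _ _).trans ?_
        linarith) hne
    have hvp := Pool.Agent.K7.H57.Suf.val_pos hadmM
    rw [hmzv, hZ]
    refine ⟨hvp, le_trans ?_ h1⟩
    have h4 : 0 ≤ ((s.length : ℝ) + 1)⁻¹ * Pool.Agent.H447R2.MZ.val (M :: e :: s) := by positivity
    rw [mul_assoc, mul_assoc]
    exact mul_le_mul_of_nonneg_right (by linarith) h4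
  · left
    push Not at hne
    constructor
    · rw [element]
      refine Finset.sum_congr rfl fun j hj => Finset.sum_congr rfl fun v hv => ?_
      have h2 : b j v = -a j v := by
        have := hne j (by have := Finset.mem_range.1 hj; omega) v hv
        linarith
      rw [h2, doubleShuffle, smul_sub, neg_smul, neg_smul]
      abel
    · rw [hZ]
      refine Finset.sum_eq_zero fun v hv => Finset.sum_eq_zero fun j hj => ?_
      rw [hne j (by have := Finset.mem_range.1 hj; omega) v hv, Int.cast_zero, zero_mul]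

end Pool.Agent.Results.MP_154526_nt.LongLastPart
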