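import Mathlib
import Pool.Agent.K7.H57.Suf.GapTwo

/-!
# MP_154526_nt: products with words `v s`, `s` a long last part: decoupling, and products of two long words

Let `V` be a finite set of words in `x`, `y` which are empty or begin with `x`.

1. (Decoupling.) Let `W` be any finite set of admissible words, and consider the elements
   `f = ∑ a_{w,v} (w * v s) + b_{w,v} (w sh v s)`, `w ∈ W`, `v ∈ V`, of `H^0` with integers `a`, `b` of absolute value at most
   `Q`. For every `Q` there is a `d_0` such that for all words `s` with at least `d_0` letters `y`: `Z f = 0` if and only if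
   the elements `h_v = ∑_w (a + b)_{w,v} w` of the span of `W` are in the kernel of `Z` for all `v ∈ V`. As
   `f = ∑_v h_v * v s + ∑ b_{w,v} (w sh v s - w * v s)`, every relation of height at most `Q` is a combination of double shuffle
   relations and of products of relations between the words of `W` with words `v s`. The length `d_0` is given explicitly in
   terms of the least value `g > 0` of `|Z|` at the combinations of words of `W` with coefficients at most `A Q`.
2. (Two long words.) Let `V'` be another finite set of words. Consider the elements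
   `f = ∑ a_{v,v'} (v s * v' s') + b_{v,v'} (v s sh v' s')` with integers `a`, `b` of absolute value at most `Q`, where `s`, `s'` are
   ANY words with `d` and `d'` letters `y` such that `Q ≤ κ d` and `Q ∑_v ζ(v s) ≤ κ d' ζ(M, s)`. If `Z f = 0`, or only
   `|Z f| < κ ζ(M, s) ζ(M', s')`, then `a + b = 0`, so that `f` is an integer combination of double shuffle elements. Here
   `κ > 0`, `M` and `M'` depend only on `V` and `V'`.

The starting point is the expansion of the tails of multiple zeta values in the functions `n! k! / (n + k)!` (helper file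
`Pool.Agent.K7.H57.Suf.Gen`); the new point is that the coefficients may come from any family of numbers whose linear forms of
bounded height are zero or at least `g` (`gap_gen`), which can be iterated.
-/

set_option autoImplicit false

namespace Pool.Agent.Results.MP_154526_nt.ProductsWithLongWords

/-- `trunc [s_1, ..., s_r] m` is the sum of `∏ k_i ^ (-s_i)` over `m > k_1 > ... > k_r ≥ 1` -/
noncomputable def trunc : List ℕ → ℕ → ℝ
  | [], _ => 1
  | s :: l, m => ∑ j ∈ Finset.Ico 1 m, trunc l j / (j : ℝ) ^ s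

/-- the multiple zeta value `ζ(s_1, ..., s_r)`, `s_1` belongs to the largest variable -/
noncomputable def mzv : List ℕ → ℝ
  | [] => 1
  | s :: l => ∑' k : ℕ, trunc l (k + 1) / ((k + 1 : ℕ) : ℝ) ^ s

/-- the word `y_{k_1} ... y_{k_t}`, where `y_k = x ^ (k - 1) y`, `x = false`, `y = true` -/
def word : List ℕ → List Bool
  | [] => []
  | k :: l => List.replicate (k - 1) false ++ true :: word l

/-- `index 0 w` is the list of the `k_i` for the word `w = y_{k_1} ... y_{k_t}` -/
def index : ℕ → List Bool → List ℕ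
  | _, [] => []
  | c, true :: u => (c + 1) :: index 0 u
  | c, false :: u => index (c + 1) u

/-- the list of the shuffles of two words -/
def shuffles : List Bool → List Bool → List (List Bool)
  | [], v => [v]
  | a :: u, [] => [a :: u]
  | a :: u, b :: v => (shuffles u (b :: v)).map (a :: ·) ++ (shuffles (a :: u) v).map (b :: ·)
termination_by u v => u.length + v.length

/-- the list of the indices in the stuffle product of two indices -/
def stuffles : List ℕ → List ℕ → List (List ℕ)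
  | [], l => [l]
  | i :: k, [] => [i :: k]
  | i :: k, j :: l => (stuffles k (j :: l)).map (i :: ·) ++ (stuffles (i :: k) l).map (j :: ·) ++
      (stuffles k l).map ((i + j) :: ·)
termination_by k l => k.length + l.length

/-- integer combinations of words -/
abbrev H : Type := List Bool →₀ ℤ

/-- the sum of a list of words -/
noncomputable def total (L : List (List Bool)) : H := (L.map fun w => Finsupp.single w 1).sum

/-- the linear map `Z` with `Z (y_{k_1} ... y_{k_t}) = ζ(k_1, ..., k_t)` -/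
noncomputable def Z : H →ₗ[ℤ] ℝ := Finsupp.linearCombination ℤ fun w => mzv (index 0 w)

/-- the shuffle product of the words `y_{k_1} ... y_{k_s}` and `y_{l_1} ... y_{l_t}` -/
noncomputable def shuffle (k l : List ℕ) : H := total (shuffles (word k) (word l))

/-- the stuffle product of the words `y_{k_1} ... y_{k_s}` and `y_{l_1} ... y_{l_t}` -/
noncomputable def stuffle (k l : List ℕ) : H := total ((stuffles k l).map word)

/-- the double shuffle element -/
noncomputable def doubleShuffle (k l : List ℕ) : H := shuffle k l - stuffle k l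

/-- admissible indices: all entries are at least one, the first one is at least two; the empty index is admissible -/
def AdmissibleIndex (l : List ℕ) : Prop := (∀ a ∈ l, 1 ≤ a) ∧ ∀ a t, l = a :: t → 2 ≤ a

/-- the index `(u_1, ..., u_r, s_1 + j, s_2, ..., s_d)` of the word `v s`, where `v = y_{u_1} ... y_{u_r} x^j` is given by
the pair `(u, j)` and `s = y_{s_1} ... y_{s_d}` -/
def glue (v : List ℕ × ℕ) : List ℕ → List ℕ
  | [] => v.1
  | a :: t => v.1 ++ (a + v.2) :: t

/-- the element `∑ a_{w,v} (w * v s) + b_{w,v} (w sh v s)`, `w ∈ W`, `v ∈ V` -/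
noncomputable def element (W : Finset (List ℕ)) (V : Finset (List ℕ × ℕ)) (s : List ℕ) (a b : List ℕ → List ℕ × ℕ → ℤ) :
    H :=
  ∑ w ∈ W, ∑ v ∈ V, (a w v • stuffle w (glue v s) + b w v • shuffle w (glue v s))

/-- the element `∑ q_w w`, `w ∈ W`, of `H` -/
noncomputable def combination (W : Finset (List ℕ)) (q : List ℕ → ℤ) : H :=
  ∑ w ∈ W, Finsupp.single (word w) (q w)

/-- the element `∑ a_{v,v'} (v s * v' s') + b_{v,v'} (v s sh v' s')`, `v ∈ V`, `v' ∈ V'` -/
noncomputable def product (V V' : Finset (List ℕ × ℕ)) (s s' : List ℕ) (a b : List ℕ × ℕ → List ℕ × ℕ → ℤ) : H :=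
  ∑ v ∈ V, ∑ v' ∈ V', (a v v' • stuffle (glue v s) (glue v' s') + b v v' • shuffle (glue v s) (glue v' s'))

lemma trunc_eq : ∀ l m, trunc l m = Pool.Agent.TH507.WD.hr l m := by
  intro l
  induction l with
  | nil => intro m; rw [trunc, Pool.Agent.TH507.WD.hr]
  | cons s l ih =>
    intro m
    rw [trunc, Pool.Agent.TH507.WD.hr]
    exact Finset.sum_congr rfl fun j _ => by rw [ih]

lemma mzv_eq : mzv = Pool.Agent.TH507.WD.mz := by
  funext l
  cases l with
  | nil => rw [mzv, Pool.Agent.TH507.WD.mz]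
  | cons s l =>
    rw [mzv, Pool.Agent.TH507.WD.mz]
    exact tsum_congr fun k => by rw [trunc_eq]

lemma word_eq : word = Pool.Agent.TH507.DS.word := by
  funext l
  induction l with
  | nil => rfl
  | cons k l ih => rw [word, Pool.Agent.TH507.DS.word, ih]

lemma index_eq : ∀ u c, index c u = Pool.Agent.TH507.DS.decA c u := by
  intro u
  induction u with
  | nil => intro c; rw [index, Pool.Agent.TH507.DS.decA]
  | cons b u ih =>
    intro c
    cases b with
    | true => rw [index, Pool.Agent.TH507.DS.decA, ih]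
    | false => rw [index, Pool.Agent.TH507.DS.decA, ih]

lemma shuffles_eq : ∀ u v, shuffles u v = Pool.Agent.TH507.DS.sh u v := by
  intro u v
  induction u, v using shuffles.induct with
  | case1 v => rw [shuffles, Pool.Agent.TH507.DS.sh]
  | case2 a u => rw [shuffles, Pool.Agent.TH507.DS.sh]
  | case3 a u b v ih1 ih2 => rw [shuffles, Pool.Agent.TH507.DS.sh, ih1, ih2]

lemma stuffles_eq : ∀ k l, stuffles k l = Pool.Agent.TH507.DS.stI k l := by
  intro k l
  induction k, l using stuffles.induct with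
  | case1 l => rw [stuffles, Pool.Agent.TH507.DS.stI]
  | case2 i k => rw [stuffles, Pool.Agent.TH507.DS.stI]
  | case3 i k j l ih1 ih2 ih3 => rw [stuffles, Pool.Agent.TH507.DS.stI, ih1, ih2, ih3]

lemma shuffle_eq (k l : List ℕ) : shuffle k l = Pool.Agent.TH507.DS.el (Pool.Agent.TH507.DS.sh
    (Pool.Agent.TH507.DS.word k) (Pool.Agent.TH507.DS.word l)) := by
  rw [shuffle, word_eq, shuffles_eq]
  rfl

lemma stuffle_eq (k l : List ℕ) : stuffle k l = Pool.Agent.TH507.DS.el ((Pool.Agent.TH507.DS.stI k l).map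
    Pool.Agent.TH507.DS.word) := by
  rw [stuffle, word_eq, stuffles_eq]
  rfl

lemma Z_eq : Z = Pool.Agent.TH507.DS.Zh := by
  rw [Z, Pool.Agent.TH507.DS.Zh]
  congr 1
  funext w
  rw [mzv_eq, index_eq]

lemma Z_products {k l : List ℕ} (hk : AdmissibleIndex k) (hl : AdmissibleIndex l) :
    Z (stuffle k l) = Pool.Agent.H447R2.MZ.val k * Pool.Agent.H447R2.MZ.val l ∧
      Z (shuffle k l) = Pool.Agent.H447R2.MZ.val k * Pool.Agent.H447R2.MZ.val l := by
  rw [Z_eq, stuffle_eq, shuffle_eq]
  exact ⟨Pool.Agent.K7.H57.Suf.Zh_stuffle hk hl, Pool.Agent.K7.H57.Suf.Zh_shuffle hk hl⟩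

lemma Z_word {w : List ℕ} (hw : AdmissibleIndex w) (n : ℤ) :
    Z (Finsupp.single (word w) n) = n * Pool.Agent.H447R2.MZ.val w := by
  rw [Z_eq, word_eq, Pool.Agent.TH507.DS.Zh, Finsupp.linearCombination_single, zsmul_eq_mul]
  congr 1
  have h1 := Pool.Agent.Q217.MZ.mz_wordA hw
  rw [Pool.Agent.Q217.MZ.mz_val w hw] at h1
  exact h1

lemma Z_combination {W : Finset (List ℕ)} (hW : ∀ w ∈ W, AdmissibleIndex w) (q : List ℕ → ℤ) :
    Z (combination W q) = ∑ w ∈ W, (q w : ℝ) * Pool.Agent.H447R2.MZ.val w := by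
  rw [combination, map_sum]
  exact Finset.sum_congr rfl fun w hw => Z_word (hW w hw) _

lemma mzv_val {w : List ℕ} (hw : AdmissibleIndex w) : mzv w = Pool.Agent.H447R2.MZ.val w := by
  rw [mzv_eq, Pool.Agent.Q217.MZ.mz_val w hw]

lemma Z_element {W : Finset (List ℕ)} (hW : ∀ w ∈ W, AdmissibleIndex w) {V : Finset (List ℕ × ℕ)} {s : List ℕ}
    (hadm : ∀ v ∈ V, AdmissibleIndex (glue v s)) (a b : List ℕ → List ℕ × ℕ → ℤ) :
    Z (element W V s a b) = ∑ v ∈ V, (∑ w ∈ W, ((a w v + b w v : ℤ) : ℝ) * Pool.Agent.H447R2.MZ.val w) *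
      Pool.Agent.H447R2.MZ.val (glue v s) := by
  rw [element, map_sum]
  simp_rw [map_sum]
  rw [Finset.sum_comm]
  refine Finset.sum_congr rfl fun v hv => ?_
  rw [Finset.sum_mul]
  refine Finset.sum_congr rfl fun w hw => ?_
  obtain ⟨h1, h2⟩ := Z_products (hW w hw) (hadm v hv)
  rw [map_add, map_zsmul, map_zsmul, h1, h2, zsmul_eq_mul, zsmul_eq_mul]
  push_cast
  ring

lemma glue_cons (v : List ℕ × ℕ) (e : ℕ) (s : List ℕ) : glue v (e :: s) = v.1 ++ (e + v.2) :: s := rfl

/-- the dichotomy -/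
theorem decouple (V : Finset (List ℕ × ℕ)) (hV : ∀ v ∈ V, AdmissibleIndex v.1) : ∃ κ A : ℝ, 0 < κ ∧ 1 ≤ A ∧
    ∃ M : ℕ, 2 ≤ M ∧ ∀ (W : Finset (List ℕ)), (∀ w ∈ W, AdmissibleIndex w) → ∀ Q g : ℝ, 0 ≤ Q → 0 < g →
      (∀ q : List ℕ → ℤ, (∀ w ∈ W, |(q w : ℝ)| ≤ A * Q) →
        Z (combination W q) = 0 ∨ g ≤ |Z (combination W q)|) →
      ∀ s : List ℕ, s ≠ [] → (∀ t ∈ s, 1 ≤ t) → (∀ v ∈ V, AdmissibleIndex (glue v s)) →
      Q * ∑ w ∈ W, mzv w ≤ κ * g * s.length →
      ∀ a b : List ℕ → List ℕ × ℕ → ℤ, (∀ w ∈ W, ∀ v ∈ V, |((a w v + b w v : ℤ) : ℝ)| ≤ Q) →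
        ((∀ v ∈ V, Z (combination W fun w => a w v + b w v) = 0) ∧ Z (element W V s a b) = 0) ∨
        (0 < mzv (M :: s) ∧ κ * g * mzv (M :: s) ≤ |Z (element W V s a b)|) := by
  classical
  obtain ⟨κ, A, hκ, hA, M, hM, h⟩ := Pool.Agent.K7.H57.Suf.gap_gen V hV
  refine ⟨κ, A, hκ, hA, M, hM, ?_⟩
  intro W hW Q g hQ hg hgap s hs0 hs hadm hL a b hab
  obtain ⟨e, s, rfl⟩ : ∃ b t, s = b :: t := by
    cases s with
    | nil => exact absurd rfl hs0
    | cons b t => exact ⟨b, t, rfl⟩
  have he : 1 ≤ e := hs e List.mem_cons_self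
  have hst : ∀ t ∈ s, 1 ≤ t := fun t ht => hs t (List.mem_cons_of_mem _ ht)
  have hlen : (((e :: s).length : ℕ) : ℝ) = (s.length : ℝ) + 1 := by
    rw [List.length_cons]
    push_cast
    ring
  rw [hlen] at hL
  have hadmM := Pool.Agent.K7.H57.Suf.adm_cons hM he hst
  by_cases hne : ∃ v ∈ V, Z (combination W fun w => a w v + b w v) ≠ 0
  · right
    have hcs : ∀ v, Z (combination W fun w => a w v + b w v) =
        ∑ w : W, ((a w.1 v + b w.1 v : ℤ) : ℝ) * Pool.Agent.H447R2.MZ.val w.1 := by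
      intro v
      rw [Z_combination hW, ← Finset.sum_coe_sort W]
    have h1 := h (ι := W) (fun w => Pool.Agent.H447R2.MZ.val w.1) Q g hQ hg (fun q hq => by
        have h2 := hgap (fun w => if hw : w ∈ W then q ⟨w, hw⟩ else 0) (fun w hw => by
          simpa [hw] using hq ⟨w, hw⟩)
        rw [Z_combination hW, ← Finset.sum_coe_sort W] at h2
        simpa using h2)
      e s he hst (fun v hv hv0 => by
        have h2 := (hadm v hv).2 (e + v.2) s (by rw [glue, hv0, List.nil_append])
        exact h2) (by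
        refine le_trans (le_of_eq ?_) hL
        congr 1
        rw [← Finset.sum_coe_sort W]
        refine Finset.sum_congr rfl fun w _ => ?_
        rw [mzv_val (hW w.1 w.2)]
        exact abs_of_pos (Pool.Agent.K7.H57.Suf.val_pos (hW w.1 w.2)))
      (fun v w => a w.1 v + b w.1 v) (fun v hv w => hab w.1 w.2 v hv) (by
        obtain ⟨v, hv, hv0⟩ := hne
        exact ⟨v, hv, by rw [← hcs]; exact hv0⟩)
    rw [mzv_val hadmM, Z_element hW hadm]
    refine ⟨Pool.Agent.K7.H57.Suf.val_pos hadmM, h1.trans (le_of_eq ?_)⟩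
    congr 1
    refine Finset.sum_congr rfl fun v _ => ?_
    rw [glue_cons, ← Finset.sum_coe_sort W]
  · left
    push Not at hne
    refine ⟨hne, ?_⟩
    rw [Z_element hW hadm]
    refine Finset.sum_eq_zero fun v hv => ?_
    rw [← Z_combination hW, hne v hv, zero_mul]

/-- **Theorem.** 1. (Decoupling.) Let `V` be a finite set of words `v = y_{u_1} ... y_{u_r} x^j`, `u` admissible or empty. For
all finite sets `W` of admissible indices and all `Q` there is a `d_0` such that for all words `s` with at least `d_0` letters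
`y` and all integers `a`, `b` of absolute value at most `Q`: `Z f = 0` for `f = ∑ a_{w,v} (w * v s) + b_{w,v} (w sh v s)` if and
only if `Z h_v = 0` for all `v ∈ V`, `h_v = ∑_w (a + b)_{w,v} w`.

2. (Two long words.) Let `V`, `V'` be finite sets of such words. There are `κ > 0` and `M, M' ≥ 2` such that for all
nonempty words `s`, `s'` with `d`, `d'` letters `y` and all `Q` with `Q ≤ κ d` and `Q ∑_v ζ(v s) ≤ κ ζ(M, s) d'`, and all integers
`a`, `b` of absolute value at most `Q / 2`, the element `f = ∑ a_{v,v'} (v s * v' s') + b_{v,v'} (v s sh v' s')` is the integer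
combination `- ∑ a_{v,v'} (v s sh v' s' - v s * v' s')` of double shuffle elements, with `Z f = 0`, or
`|Z f| ≥ κ ζ(M, s) ζ(M', s') > 0`.

3. (The explicit form of 1.) There are `κ > 0`, `A ≥ 1` and `M ≥ 2`, depending only on `V`, such that in 1, for `Q`
replaced by `Q / 2`, it suffices that `Q ∑_w ζ(w) ≤ κ g d` where `g > 0` is such that for all integers `q_w` of absolute value at
most `A Q` the value of `Z` at `∑ q_w w` is zero or at least `g` in absolute value; and then `|Z f| ≥ κ g ζ(M, s) > 0` if not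
all `Z h_v` are zero. -/
theorem result :
    (∀ V : Finset (List ℕ × ℕ), (∀ v ∈ V, AdmissibleIndex v.1) → ∀ W : Finset (List ℕ), (∀ w ∈ W, AdmissibleIndex w) →
      ∀ Q : ℝ, ∃ d0 : ℕ, ∀ s : List ℕ, d0 ≤ s.length → (∀ t ∈ s, 1 ≤ t) → (∀ v ∈ V, AdmissibleIndex (glue v s)) →
      ∀ a b : List ℕ → List ℕ × ℕ → ℤ, (∀ w ∈ W, ∀ v ∈ V, |(a w v : ℝ)| ≤ Q ∧ |(b w v : ℝ)| ≤ Q) →
        (Z (element W V s a b) = 0 ↔ ∀ v ∈ V, Z (combination W fun w => a w v + b w v) = 0)) ∧
    (∀ V V' : Finset (List ℕ × ℕ), (∀ v ∈ V, AdmissibleIndex v.1) → (∀ v ∈ V', AdmissibleIndex v.1) →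
      ∃ κ : ℝ, 0 < κ ∧ ∃ M M' : ℕ, 2 ≤ M ∧ 2 ≤ M' ∧ ∀ s s' : List ℕ, s ≠ [] → s' ≠ [] → (∀ t ∈ s, 1 ≤ t) →
      (∀ t ∈ s', 1 ≤ t) → (∀ v ∈ V, AdmissibleIndex (glue v s)) → (∀ v ∈ V', AdmissibleIndex (glue v s')) →
      ∀ Q : ℝ, 0 ≤ Q → Q ≤ κ * s.length → Q * ∑ v ∈ V, mzv (glue v s) ≤ κ * mzv (M :: s) * s'.length →
      ∀ a b : List ℕ × ℕ → List ℕ × ℕ → ℤ,
        (∀ v ∈ V, ∀ v' ∈ V', |(a v v' : ℝ)| ≤ Q / 2 ∧ |(b v v' : ℝ)| ≤ Q / 2) →
        (product V V' s s' a b = ∑ v ∈ V, ∑ v' ∈ V', (-a v v') • doubleShuffle (glue v s) (glue v' s') ∧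
          Z (product V V' s s' a b) = 0) ∨
        (0 < mzv (M :: s) * mzv (M' :: s') ∧
          κ * (mzv (M :: s) * mzv (M' :: s')) ≤ |Z (product V V' s s' a b)|)) ∧
    (∀ V : Finset (List ℕ × ℕ), (∀ v ∈ V, AdmissibleIndex v.1) → ∃ κ A : ℝ, 0 < κ ∧ 1 ≤ A ∧
      ∃ M : ℕ, 2 ≤ M ∧ ∀ (W : Finset (List ℕ)), (∀ w ∈ W, AdmissibleIndex w) → ∀ Q g : ℝ, 0 ≤ Q → 0 < g →
      (∀ q : List ℕ → ℤ, (∀ w ∈ W, |(q w : ℝ)| ≤ A * Q) →
        Z (combination W q) = 0 ∨ g ≤ |Z (combination W q)|) →
      ∀ s : List ℕ, s ≠ [] → (∀ t ∈ s, 1 ≤ t) → (∀ v ∈ V, AdmissibleIndex (glue v s)) →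
      Q * ∑ w ∈ W, mzv w ≤ κ * g * s.length →
      ∀ a b : List ℕ → List ℕ × ℕ → ℤ, (∀ w ∈ W, ∀ v ∈ V, |(a w v : ℝ)| ≤ Q / 2 ∧ |(b w v : ℝ)| ≤ Q / 2) →
        ((∀ v ∈ V, Z (combination W fun w => a w v + b w v) = 0) ∧ Z (element W V s a b) = 0) ∨
        (0 < mzv (M :: s) ∧ κ * g * mzv (M :: s) ≤ |Z (element W V s a b)|)) := by
  classical
  have hsum : ∀ {x y : ℤ} {Q : ℝ}, |(x : ℝ)| ≤ Q / 2 → |(y : ℝ)| ≤ Q / 2 → |((x + y : ℤ) : ℝ)| ≤ Q := by
    intro x y Q h1 h2
    push_cast
    exact (abs_add_le _ _).trans (by linarith)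
  refine ⟨?_, ?_, ?_⟩
  · intro V hV W hW Q
    obtain ⟨κ, A, hκ, hA, M, hM, h⟩ := decouple V hV
    obtain ⟨g, hg, hgap⟩ := Pool.Agent.K7.H57.Suf.exists_gap (ι := W)
      (fun w => Pool.Agent.H447R2.MZ.val w.1) (A * |2 * Q|)
    obtain ⟨N, hN⟩ := exists_nat_ge (|2 * Q| * (∑ w ∈ W, mzv w) / (κ * g))
    refine ⟨N + 1, fun s hsN hs hadm a b hab => ?_⟩
    have hN' : |2 * Q| * (∑ w ∈ W, mzv w) ≤ κ * g * s.length := by
      rw [div_le_iff₀ (by positivity)] at hN
      refine hN.trans ?_
      rw [mul_comm]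
      refine mul_le_mul_of_nonneg_left ?_ (by positivity)
      exact_mod_cast (by omega : N ≤ s.length)
    have hs0 : s ≠ [] := by
      rintro rfl
      simp at hsN
    have h1 := h W hW |2 * Q| g (abs_nonneg _) hg (fun q hq => by
      rw [Z_combination hW, ← Finset.sum_coe_sort W]
      exact hgap (fun w => q w.1) fun w => hq w.1 w.2) s hs0 hs hadm hN' a b (fun w hw v hv => by
        obtain ⟨h2, h3⟩ := hab w hw v hv
        have h4 := le_abs_self (2 * Q)
        exact hsum (by linarith) (by linarith))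
    constructor
    · intro h0
      rcases h1 with h1 | ⟨h1, h2⟩
      · exact h1.1
      · rw [h0, abs_zero] at h2
        have : 0 < κ * g * mzv (M :: s) := by positivity
        linarith
    · intro h0
      rw [Z_element hW hadm]
      refine Finset.sum_eq_zero fun v hv => ?_
      rw [← Z_combination hW, h0 v hv, zero_mul]
  · intro V V' hV hV'
    obtain ⟨κ, hκ, M, M', hM, hM', h⟩ := Pool.Agent.K7.H57.Suf.two_long V V' hV hV'
    refine ⟨κ, hκ, M, M', hM, hM', ?_⟩
    intro s s' hs0 hs0' hs hs' hadm hadm' Q hQ hQ1 hQ2 a b hab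
    obtain ⟨e, s, rfl⟩ : ∃ b t, s = b :: t := by
      cases s with
      | nil => exact absurd rfl hs0
      | cons b t => exact ⟨b, t, rfl⟩
    obtain ⟨e', s', rfl⟩ : ∃ b t, s' = b :: t := by
      cases s' with
      | nil => exact absurd rfl hs0'
      | cons b t => exact ⟨b, t, rfl⟩
    have he : 1 ≤ e := hs e List.mem_cons_self
    have he' : 1 ≤ e' := hs' e' List.mem_cons_self
    have hst : ∀ t ∈ s, 1 ≤ t := fun t ht => hs t (List.mem_cons_of_mem _ ht)
    have hst' : ∀ t ∈ s', 1 ≤ t := fun t ht => hs' t (List.mem_cons_of_mem _ ht)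
    have hlen : (((e :: s).length : ℕ) : ℝ) = (s.length : ℝ) + 1 := by
      rw [List.length_cons]; push_cast; ring
    have hlen' : (((e' :: s').length : ℕ) : ℝ) = (s'.length : ℝ) + 1 := by
      rw [List.length_cons]; push_cast; ring
    rw [hlen] at hQ1
    rw [hlen'] at hQ2
    have hadmM := Pool.Agent.K7.H57.Suf.adm_cons hM he hst
    have hadmM' := Pool.Agent.K7.H57.Suf.adm_cons hM' he' hst'
    have hZ : Z (product V V' (e :: s) (e' :: s') a b) = ∑ v ∈ V, ∑ v' ∈ V', ((a v v' + b v v' : ℤ) : ℝ) *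
        (Pool.Agent.H447R2.MZ.val (v.1 ++ (e + v.2) :: s) * Pool.Agent.H447R2.MZ.val (v'.1 ++ (e' + v'.2) :: s')) := by
      rw [product, map_sum]
      refine Finset.sum_congr rfl fun v hv => ?_
      rw [map_sum]
      refine Finset.sum_congr rfl fun v' hv' => ?_
      obtain ⟨h1, h2⟩ := Z_products (hadm v hv) (hadm' v' hv')
      rw [map_add, map_zsmul, map_zsmul, h1, h2, zsmul_eq_mul, zsmul_eq_mul, glue_cons, glue_cons]
      push_cast
      ring
    by_cases hne : ∃ v ∈ V, ∃ v' ∈ V', a v v' + b v v' ≠ 0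
    · right
      rw [mzv_val hadmM, mzv_val hadmM', hZ]
      have hp := Pool.Agent.K7.H57.Suf.val_pos hadmM
      have hp' := Pool.Agent.K7.H57.Suf.val_pos hadmM'
      refine ⟨by positivity, ?_⟩
      rw [← mul_assoc]
      refine h e s e' s' he hst he' hst' (fun v hv hv0 => (hadm v hv).2 (e + v.2) s (by
        rw [glue, hv0, List.nil_append])) (fun v hv hv0 => (hadm' v hv).2 (e' + v.2) s' (by
        rw [glue, hv0, List.nil_append])) Q hQ hQ1 ?_ (fun v v' => a v v' + b v v')
        (fun v hv v' hv' => hsum (hab v hv v' hv').1 (hab v hv v' hv').2) hne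
      rw [mzv_val hadmM] at hQ2
      refine le_trans (le_of_eq ?_) hQ2
      congr 1
      refine Finset.sum_congr rfl fun v hv => ?_
      rw [mzv_val (hadm v hv), glue_cons]
    · left
      push Not at hne
      constructor
      · rw [product]
        refine Finset.sum_congr rfl fun v hv => Finset.sum_congr rfl fun v' hv' => ?_
        have h2 : b v v' = -a v v' := by
          have := hne v hv v' hv'
          linarith
        rw [h2, doubleShuffle, smul_sub, neg_smul, neg_smul]
        abel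
      · rw [hZ]
        refine Finset.sum_eq_zero fun v hv => Finset.sum_eq_zero fun v' hv' => ?_
        rw [hne v hv v' hv', Int.cast_zero, zero_mul]
  · intro V hV
    obtain ⟨κ, A, hκ, hA, M, hM, h⟩ := decouple V hV
    refine ⟨κ, A, hκ, hA, M, hM, fun W hW Q g hQ hg hgap s hs0 hs hadm hL a b hab => ?_⟩
    exact h W hW Q g hQ hg hgap s hs0 hs hadm hL a b
      (fun w hw v hv => hsum (hab w hw v hv).1 (hab w hw v hv).2)

end Pool.Agent.Results.MP_154526_nt.ProductsWithLongWords
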