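import Mathlib
import Pool.Agent.K7.H51.MZ.DS
import Pool.Agent.K7.H57.Suf.DSh

/-!
# MP_154526_nt: products with words `p v s`, `p` and `s` arbitrary words

Let `V` be a finite set of arbitrary words in `x`, `y`. For a word `p` which begins with `x` and a word `s` which ends with `y`
let `X` be the number of the letters `x` of `p`, `Y` the number of the letters `y` of `s`, `m = min(X, Y)` and
`m' = max(X, Y)`. The theorem is about relations between products which contain the words `p v s`, `v ∈ V`; it is uniform in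
the words `p` and `s` on BOTH sides, if `m` is large and `m'` is larger than a power of `m`.

1. (Decoupling.) Let `W` be a finite set of admissible words. The relations `Z f = 0` of height at most `Q` for
   `f = ∑ a_{w,v} (w * p v s) + b_{w,v} (w sh p v s)`, `w ∈ W`, `v ∈ V`, are exactly those with `Z h_v = 0` for all `v`,
   `h_v = ∑_w (a + b)_{w,v} w`, if `m ≥ D` and `m' ≥ m ^ D`, `D = D(V, W, Q)`.
2. (Powers of `xy`.) If `W` consists of the words `(xy)^j`, `j ≤ J`, then the only relations of height at most `κ m ^ γ` are the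
   integer combinations of double shuffle elements, if `m ^ B ≤ κ m'`; with a lower bound for `|Z f|` for all other `f`.
3. (Two long words.) The only relations of height at most `Q` for
   `f = ∑ a_{v,v'} (p v s * p' v' s') + b_{v,v'} (p v s sh p' v' s')`, `v ∈ V`, `v' ∈ V'`, are the integer combinations of double
   shuffle elements, if `m ≥ D`, `m' ≥ m ^ D`, `D = D(V, Q)`, and the corresponding condition holds for `p'` and `s'` with
   `D' = D'(V, V', Q, p, s)`.

Nothing is assumed on the arguments of `p` and `s`: they may be bounded, e.g. `2` or `3` (`1` is allowed for `s`, and for `p`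
after the first argument). The files `LongLastPart` and `ProductsWithLongWords` are about words `v s`, with no word `p`.

Proof. Let `A_w(m)` be the differences of the harmonic sum of the word `w`. Then
`Z(p s) = ∑_{m, k} A_s(m) A_{p^∨}(k) m! k! / (m + k)!` with the dual word `p^∨`. Prefixing a word `v` to `s` multiplies the vector
`A_s` by a triangular matrix whose diagonals are rational functions; for a real combination `∑ c_v v` let `i` be the number of
the first diagonal which is not identically zero. Then the value at `Y + i` is the first one which is not zero; it is not too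
small, as it is a nonzero polynomial at the large number `Y` with leading coefficient bounded below by the gap of the numbers
`c_v`. The weights `∑_k A_{p^∨}(k) m! k! / (m + k)!` decrease by the factor `(m + 1) / (X + m + 1)` at each step, and if `X` is
large with respect to a power of `Y`, the first value decides. The other case is dual.
-/

set_option autoImplicit false

namespace Pool.Agent.Results.MP_154526_nt.TwoSidedContexts

/-- `trunc [s_1, ..., s_r] m` is the sum of `∏ k_i ^ (-s_i)` over `m > k_1 > ... > k_r ≥ 1` -/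
noncomputable def trunc : List ℕ → ℕ → ℝ
  | [], _ => 1
  | s :: l, m => ∑ j ∈ Finset.Ico 1 m, trunc l j / (j : ℝ) ^ s

/-- the multiple zeta value `ζ(s_1, ..., s_r)`, `s_1` belongs to the largest variable -/
noncomputable def mzv : List ℕ → ℝ
  | [] => 1
  | s :: l => ∑' k : ℕ, trunc l (k + 1) / ((k + 1 : ℕ) : ℝ) ^ s

/-- the word `y_{k_1} ... y_{k_t}`, where `y_k = x ^ (k - 1) y`, `x = false`, `y = true` -/
def word : List ℕ → List Bool
  | [] => []
  | k :: l => List.replicate (k - 1) false ++ true :: word l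

/-- `index 0 w` is the list of the `k_i` for the word `w = y_{k_1} ... y_{k_t}` -/
def index : ℕ → List Bool → List ℕ
  | _, [] => []
  | c, true :: u => (c + 1) :: index 0 u
  | c, false :: u => index (c + 1) u

/-- the list of the shuffles of two words -/
def shuffles : List Bool → List Bool → List (List Bool)
  | [], v => [v]
  | a :: u, [] => [a :: u]
  | a :: u, b :: v => (shuffles u (b :: v)).map (a :: ·) ++ (shuffles (a :: u) v).map (b :: ·)
termination_by u v => u.length + v.length

/-- the list of the indices in the stuffle product of two indices -/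
def stuffles : List ℕ → List ℕ → List (List ℕ)
  | [], l => [l]
  | i :: k, [] => [i :: k]
  | i :: k, j :: l => (stuffles k (j :: l)).map (i :: ·) ++ (stuffles (i :: k) l).map (j :: ·) ++
      (stuffles k l).map ((i + j) :: ·)
termination_by k l => k.length + l.length

/-- integer combinations of words -/
abbrev H : Type := List Bool →₀ ℤ

/-- the sum of a list of words -/
noncomputable def total (L : List (List Bool)) : H := (L.map fun w => Finsupp.single w 1).sum

/-- the linear map `Z` with `Z (y_{k_1} ... y_{k_t}) = ζ(k_1, ..., k_t)` -/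
noncomputable def Z : H →ₗ[ℤ] ℝ := Finsupp.linearCombination ℤ fun w => mzv (index 0 w)

/-- the shuffle product of the words `y_{k_1} ... y_{k_s}` and `y_{l_1} ... y_{l_t}` -/
noncomputable def shuffle (k l : List ℕ) : H := total (shuffles (word k) (word l))

/-- the stuffle product of the words `y_{k_1} ... y_{k_s}` and `y_{l_1} ... y_{l_t}` -/
noncomputable def stuffle (k l : List ℕ) : H := total ((stuffles k l).map word)

/-- the double shuffle element -/
noncomputable def doubleShuffle (k l : List ℕ) : H := shuffle k l - stuffle k l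

/-- admissible indices: all entries are at least one, the first one is at least two; the empty index is admissible -/
def AdmissibleIndex (l : List ℕ) : Prop := (∀ a ∈ l, 1 ≤ a) ∧ ∀ a t, l = a :: t → 2 ≤ a

/-- words which begin with `x` -/
def BeginsX (p : List Bool) : Prop := ∃ q, p = false :: q

/-- words which end with `y` -/
def EndsY (s : List Bool) : Prop := ∃ q, s = q ++ [true]

/-- `m = min(X, Y)`, `X` the number of the letters `x` of `p`, `Y` the number of the letters `y` of `s` -/
def least (p s : List Bool) : ℕ := min (p.count false) (s.count true)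

/-- `m' = max(X, Y)` -/
def greatest (p s : List Bool) : ℕ := max (p.count false) (s.count true)

/-- the index `(k_1, ..., k_t)` of the word `p v s = y_{k_1} ... y_{k_t}` -/
def join (p s v : List Bool) : List ℕ := index 0 (p ++ v ++ s)

/-- the element `∑ a_{w,v} (w * p v s) + b_{w,v} (w sh p v s)`, `w ∈ W`, `v ∈ V` -/
noncomputable def element (W : Finset (List ℕ)) (V : Finset (List Bool)) (p s : List Bool)
    (a b : List ℕ → List Bool → ℤ) : H :=
  ∑ w ∈ W, ∑ v ∈ V, (a w v • stuffle w (join p s v) + b w v • shuffle w (join p s v))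

/-- the element `∑ q_w w`, `w ∈ W`, of `H` -/
noncomputable def combination (W : Finset (List ℕ)) (q : List ℕ → ℤ) : H :=
  ∑ w ∈ W, Finsupp.single (word w) (q w)

/-- the element `∑ a_{j,v} ((xy)^j * p v s) + b_{j,v} ((xy)^j sh p v s)`, `j ≤ J`, `v ∈ V` -/
noncomputable def powers (J : ℕ) (V : Finset (List Bool)) (p s : List Bool) (a b : ℕ → List Bool → ℤ) : H :=
  ∑ j ∈ Finset.range (J + 1), ∑ v ∈ V, (a j v • stuffle (List.replicate j 2) (join p s v) +
    b j v • shuffle (List.replicate j 2) (join p s v))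

/-- the element `∑ a_{v,v'} (p v s * p' v' s') + b_{v,v'} (p v s sh p' v' s')`, `v ∈ V`, `v' ∈ V'` -/
noncomputable def product (V V' : Finset (List Bool)) (p s p' s' : List Bool) (a b : List Bool → List Bool → ℤ) : H :=
  ∑ v ∈ V, ∑ v' ∈ V', (a v v' • stuffle (join p s v) (join p' s' v') + b v v' • shuffle (join p s v) (join p' s' v'))

lemma trunc_eq : ∀ l m, trunc l m = Pool.Agent.TH507.WD.hr l m := by
  intro l
  induction l with
  | nil => intro m; rw [trunc, Pool.Agent.TH507.WD.hr]
  | cons s l ih =>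
    intro m
    rw [trunc, Pool.Agent.TH507.WD.hr]
    exact Finset.sum_congr rfl fun j _ => by rw [ih]

lemma mzv_eq : mzv = Pool.Agent.TH507.WD.mz := by
  funext l
  cases l with
  | nil => rw [mzv, Pool.Agent.TH507.WD.mz]
  | cons s l =>
    rw [mzv, Pool.Agent.TH507.WD.mz]
    exact tsum_congr fun k => by rw [trunc_eq]

lemma word_eq : word = Pool.Agent.TH507.DS.word := by
  funext l
  induction l with
  | nil => rfl
  | cons k l ih => rw [word, Pool.Agent.TH507.DS.word, ih]

lemma index_eq : ∀ u c, index c u = Pool.Agent.TH507.DS.decA c u := by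
  intro u
  induction u with
  | nil => intro c; rw [index, Pool.Agent.TH507.DS.decA]
  | cons b u ih =>
    intro c
    cases b with
    | true => rw [index, Pool.Agent.TH507.DS.decA, ih]
    | false => rw [index, Pool.Agent.TH507.DS.decA, ih]

lemma index_eq' : ∀ u c, index c u = Pool.Agent.K7.H51.MZ.decA c u := by
  intro u
  induction u with
  | nil => intro c; rw [index, Pool.Agent.K7.H51.MZ.decA]
  | cons b u ih =>
    intro c
    cases b with
    | true => rw [index, Pool.Agent.K7.H51.MZ.decA, ih]
    | false => rw [index, Pool.Agent.K7.H51.MZ.decA, ih]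

lemma shuffles_eq : ∀ u v, shuffles u v = Pool.Agent.TH507.DS.sh u v := by
  intro u v
  induction u, v using shuffles.induct with
  | case1 v => rw [shuffles, Pool.Agent.TH507.DS.sh]
  | case2 a u => rw [shuffles, Pool.Agent.TH507.DS.sh]
  | case3 a u b v ih1 ih2 => rw [shuffles, Pool.Agent.TH507.DS.sh, ih1, ih2]

lemma stuffles_eq : ∀ k l, stuffles k l = Pool.Agent.TH507.DS.stI k l := by
  intro k l
  induction k, l using stuffles.induct with
  | case1 l => rw [stuffles, Pool.Agent.TH507.DS.stI]
  | case2 i k => rw [stuffles, Pool.Agent.TH507.DS.stI]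
  | case3 i k j l ih1 ih2 ih3 => rw [stuffles, Pool.Agent.TH507.DS.stI, ih1, ih2, ih3]

lemma shuffle_eq (k l : List ℕ) : shuffle k l = Pool.Agent.TH507.DS.el (Pool.Agent.TH507.DS.sh
    (Pool.Agent.TH507.DS.word k) (Pool.Agent.TH507.DS.word l)) := by
  rw [shuffle, word_eq, shuffles_eq]
  rfl

lemma stuffle_eq (k l : List ℕ) : stuffle k l = Pool.Agent.TH507.DS.el ((Pool.Agent.TH507.DS.stI k l).map
    Pool.Agent.TH507.DS.word) := by
  rw [stuffle, word_eq, stuffles_eq]
  rfl

lemma Z_eq : Z = Pool.Agent.TH507.DS.Zh := by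
  rw [Z, Pool.Agent.TH507.DS.Zh]
  congr 1
  funext w
  rw [mzv_eq, index_eq]

lemma Z_products {k l : List ℕ} (hk : AdmissibleIndex k) (hl : AdmissibleIndex l) :
    Z (stuffle k l) = Pool.Agent.H447R2.MZ.val k * Pool.Agent.H447R2.MZ.val l ∧
      Z (shuffle k l) = Pool.Agent.H447R2.MZ.val k * Pool.Agent.H447R2.MZ.val l := by
  rw [Z_eq, stuffle_eq, shuffle_eq]
  exact ⟨Pool.Agent.K7.H57.Suf.Zh_stuffle hk hl, Pool.Agent.K7.H57.Suf.Zh_shuffle hk hl⟩

lemma Z_word {w : List ℕ} (hw : AdmissibleIndex w) (n : ℤ) :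
    Z (Finsupp.single (word w) n) = n * Pool.Agent.H447R2.MZ.val w := by
  rw [Z_eq, word_eq, Pool.Agent.TH507.DS.Zh, Finsupp.linearCombination_single, zsmul_eq_mul]
  congr 1
  have h1 := Pool.Agent.Q217.MZ.mz_wordA hw
  rw [Pool.Agent.Q217.MZ.mz_val w hw] at h1
  exact h1

lemma Z_combination {W : Finset (List ℕ)} (hW : ∀ w ∈ W, AdmissibleIndex w) (q : List ℕ → ℤ) :
    Z (combination W q) = ∑ w ∈ W, (q w : ℝ) * Pool.Agent.H447R2.MZ.val w := by
  rw [combination, map_sum]
  exact Finset.sum_congr rfl fun w hw => Z_word (hW w hw) _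

lemma join_adm {p : List Bool} (hp : BeginsX p) (s v : List Bool) : AdmissibleIndex (join p s v) := by
  rw [join, index_eq', List.append_assoc]
  exact Pool.Agent.K7.H51.MZ.adm_decA (Pool.Agent.K7.H51.MZ.BX.append hp _)

lemma join_eq (p s v : List Bool) : join p s v = Pool.Agent.K7.H51.MZ.decA 0 (p ++ (v ++ s)) := by
  rw [join, index_eq', List.append_assoc]

lemma mem_true {s : List Bool} (hs : EndsY s) : true ∈ s := by
  obtain ⟨q, rfl⟩ := hs
  simp

lemma join_inj {p s : List Bool} (hs : EndsY s) {v v' : List Bool} (h : join p s v = join p s v') : v = v' := by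
  obtain ⟨q, rfl⟩ := hs
  rw [join, join, index_eq', index_eq', ← List.append_assoc, ← List.append_assoc] at h
  have h1 := Pool.Agent.K7.H51.MZ.decA_inj h
  rw [List.append_left_inj, List.append_right_inj] at h1
  exact h1

lemma Z_element {W : Finset (List ℕ)} (hW : ∀ w ∈ W, AdmissibleIndex w) {V : Finset (List Bool)} {p s : List Bool}
    (hp : BeginsX p) (a b : List ℕ → List Bool → ℤ) :
    Z (element W V p s a b) = ∑ v ∈ V, (∑ w : W, ((a w.1 v + b w.1 v : ℤ) : ℝ) * Pool.Agent.H447R2.MZ.val w.1) *
      Pool.Agent.H447R2.MZ.val (Pool.Agent.K7.H51.MZ.decA 0 (p ++ (v ++ s))) := by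
  rw [element, map_sum]
  simp_rw [map_sum]
  rw [Finset.sum_comm]
  refine Finset.sum_congr rfl fun v _ => ?_
  rw [Finset.sum_coe_sort W fun w => ((a w v + b w v : ℤ) : ℝ) * Pool.Agent.H447R2.MZ.val w, Finset.sum_mul]
  refine Finset.sum_congr rfl fun w hw => ?_
  obtain ⟨h1, h2⟩ := Z_products (hW w hw) (join_adm hp s v)
  rw [map_add, map_zsmul, map_zsmul, h1, h2, zsmul_eq_mul, zsmul_eq_mul, join_eq]
  push_cast
  ring

lemma adds {x y : ℤ} {Q : ℝ} (h1 : |(x : ℝ)| ≤ Q) (h2 : |(y : ℝ)| ≤ Q) : |((x + y : ℤ) : ℝ)| ≤ 2 * Q := by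
  push_cast
  exact (abs_add_le _ _).trans (by linarith)

/-- the first part -/
theorem part1 (V : Finset (List Bool)) (W : Finset (List ℕ)) (hW : ∀ w ∈ W, AdmissibleIndex w) (Q : ℝ) :
    ∃ D : ℕ, ∀ p s : List Bool, BeginsX p → EndsY s → D ≤ least p s → least p s ^ D ≤ greatest p s →
      ∀ a b : List ℕ → List Bool → ℤ, (∀ w ∈ W, ∀ v ∈ V, |(a w v : ℝ)| ≤ Q ∧ |(b w v : ℝ)| ≤ Q) →
        (Z (element W V p s a b) = 0 ↔ ∀ v ∈ V, Z (combination W fun w => a w v + b w v) = 0) := by
  obtain ⟨D, hD⟩ := Pool.Agent.K7.H51.MZ.decouple (ι := W) (fun w => Pool.Agent.H447R2.MZ.val w.1) V (2 * |Q|)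
    (by positivity)
  refine ⟨D, fun p s hp hs h1 h2 a b hab => ?_⟩
  have hcomb : ∀ v, Z (combination W fun w => a w v + b w v) =
      ∑ w : W, ((a w.1 v + b w.1 v : ℤ) : ℝ) * Pool.Agent.H447R2.MZ.val w.1 := by
    intro v
    rw [Z_combination hW, Finset.sum_coe_sort W fun w => ((a w v + b w v : ℤ) : ℝ) * Pool.Agent.H447R2.MZ.val w]
  rw [Z_element hW hp]
  constructor
  · intro h v hv
    rw [hcomb]
    exact hD p s hp (mem_true hs) h1 h2 (fun v w => a w.1 v + b w.1 v) (fun v hv w =>
      adds ((hab w.1 w.2 v hv).1.trans (le_abs_self Q)) ((hab w.1 w.2 v hv).2.trans (le_abs_self Q))) h v hv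
  · intro h
    refine Finset.sum_eq_zero fun v hv => ?_
    rw [← hcomb, h v hv, zero_mul]

/-- the second part -/
theorem part2 (V : Finset (List Bool)) (J : ℕ) : ∃ κ γ : ℝ, 0 < κ ∧ 0 < γ ∧ ∃ B M : ℕ,
    ∀ p s : List Bool, BeginsX p → EndsY s → (least p s : ℝ) ^ B ≤ κ * greatest p s →
      ∀ a b : ℕ → List Bool → ℤ,
      (∀ j ≤ J, ∀ v ∈ V, |(a j v : ℝ)| ≤ κ * (least p s : ℝ) ^ γ ∧ |(b j v : ℝ)| ≤ κ * (least p s : ℝ) ^ γ) →
        (powers J V p s a b =
            ∑ j ∈ Finset.range (J + 1), ∑ v ∈ V, (-a j v) • doubleShuffle (List.replicate j 2) (join p s v) ∧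
          Z (powers J V p s a b) = 0) ∨
        (0 < mzv (join p s (List.replicate M true ++ List.replicate M false)) ∧
          κ * ((least p s : ℝ) ^ B)⁻¹ * mzv (join p s (List.replicate M true ++ List.replicate M false)) ≤
            |Z (powers J V p s a b)|) := by
  classical
  obtain ⟨κ, γ, hκ, hγ, B, M, h⟩ := Pool.Agent.K7.H51.MZ.powers_main V J
  refine ⟨κ / 2, γ, by positivity, hγ, B, M, fun p s hp hs hL a b hab => ?_⟩
  have hlo : least p s = Pool.Agent.K7.H51.MZ.lo p s := rfl
  have hhi : greatest p s = Pool.Agent.K7.H51.MZ.hi p s := rfl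
  have hrep : ∀ j, AdmissibleIndex (List.replicate j 2) := Pool.Agent.K7.H57.Suf.adm_rep2
  have hZ : Z (powers J V p s a b) = ∑ v ∈ V, ∑ j ∈ Finset.range (J + 1), ((a j v + b j v : ℤ) : ℝ) *
      (Pool.Agent.H447R2.MZ.val (List.replicate j 2) *
        Pool.Agent.H447R2.MZ.val (Pool.Agent.K7.H51.MZ.decA 0 (p ++ (v ++ s)))) := by
    rw [powers, map_sum, Finset.sum_comm]
    refine Finset.sum_congr rfl fun j _ => ?_
    rw [map_sum]
    refine Finset.sum_congr rfl fun v _ => ?_
    obtain ⟨h1, h2⟩ := Z_products (hrep j) (join_adm hp s v)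
    rw [map_add, map_zsmul, map_zsmul, h1, h2, zsmul_eq_mul, zsmul_eq_mul, join_eq]
    push_cast
    ring
  by_cases hne : ∃ j ≤ J, ∃ v ∈ V, a j v + b j v ≠ 0
  · right
    have hins : mzv (join p s (List.replicate M true ++ List.replicate M false)) =
        Pool.Agent.K7.H51.MZ.ins M p s := by
      rw [mzv_eq, Pool.Agent.Q217.MZ.mz_val _ (join_adm hp s _), join_eq, Pool.Agent.K7.H51.MZ.ins, List.append_assoc]
    have hpos := Pool.Agent.K7.H51.MZ.ins_pos M (s := s) hp
    rw [hlo, hhi] at hL
    rw [hlo] at hab ⊢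
    have h1 := h p s hp (mem_true hs) (fun j v => a j v + b j v) (fun j hj v hv => by
      obtain ⟨h2, h3⟩ := hab j hj v hv
      refine (adds h2 h3).trans (le_of_eq (by ring))) hne
      (hL.trans (mul_le_mul_of_nonneg_right (by linarith) (Nat.cast_nonneg _)))
    rw [hins, hZ]
    refine ⟨hpos, le_trans ?_ h1⟩
    refine mul_le_mul_of_nonneg_right (mul_le_mul_of_nonneg_right (by linarith) (by positivity)) hpos.le
  · left
    push Not at hne
    constructor
    · rw [powers]
      refine Finset.sum_congr rfl fun j hj => Finset.sum_congr rfl fun v hv => ?_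
      have h2 : b j v = -a j v := by
        have := hne j (by have := Finset.mem_range.1 hj; omega) v hv
        linarith
      rw [h2, doubleShuffle, smul_sub, neg_smul, neg_smul]
      abel
    · rw [hZ]
      refine Finset.sum_eq_zero fun v hv => Finset.sum_eq_zero fun j hj => ?_
      rw [hne j (by have := Finset.mem_range.1 hj; omega) v hv, Int.cast_zero, zero_mul]

/-- the words `p v s` have no relations of height `T` -/
lemma nonvanish (V : Finset (List Bool)) (T : ℝ) : ∃ D : ℕ, ∀ p s : List Bool, BeginsX p → EndsY s →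
    D ≤ least p s → least p s ^ D ≤ greatest p s → ∀ c : List Bool → ℤ, (∀ v ∈ V, |(c v : ℝ)| ≤ T) →
      ∑ v ∈ V, (c v : ℝ) * Pool.Agent.H447R2.MZ.val (join p s v) = 0 → ∀ v ∈ V, c v = 0 := by
  obtain ⟨D, hD⟩ := Pool.Agent.K7.H51.MZ.decouple (ι := Fin 1) (fun _ => (1 : ℝ)) V |T| (abs_nonneg _)
  refine ⟨D, fun p s hp hs h1 h2 c hc h v hv => ?_⟩
  have h3 := hD p s hp (mem_true hs) h1 h2 (fun v _ => c v) (fun v hv _ => (hc v hv).trans (le_abs_self T)) (by
    rw [← h]
    refine Finset.sum_congr rfl fun v _ => ?_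
    rw [Fin.sum_univ_one, mul_one, join_eq]) v hv
  rw [Fin.sum_univ_one, mul_one] at h3
  exact_mod_cast h3

/-- the third part -/
theorem part3 (V : Finset (List Bool)) (Q : ℝ) : ∃ D : ℕ, ∀ p s : List Bool, BeginsX p → EndsY s →
    D ≤ least p s → least p s ^ D ≤ greatest p s → ∀ V' : Finset (List Bool), ∃ D' : ℕ, ∀ p' s' : List Bool,
    BeginsX p' → EndsY s' → D' ≤ least p' s' → least p' s' ^ D' ≤ greatest p' s' →
      ∀ a b : List Bool → List Bool → ℤ, (∀ v ∈ V, ∀ v' ∈ V', |(a v v' : ℝ)| ≤ Q ∧ |(b v v' : ℝ)| ≤ Q) →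
        Z (product V V' p s p' s' a b) = 0 →
          product V V' p s p' s' a b = ∑ v ∈ V, ∑ v' ∈ V', (-a v v') • doubleShuffle (join p s v) (join p' s' v') := by
  classical
  obtain ⟨D, hD⟩ := nonvanish V (2 * Q)
  refine ⟨D, fun p s hp hs h1 h2 V' => ?_⟩
  have hinj : Set.InjOn (join p s) (V : Set (List Bool)) := fun _ _ _ _ h => join_inj hs h
  have hW : ∀ w ∈ V.image (join p s), AdmissibleIndex w := by
    intro w hw
    obtain ⟨v, _, rfl⟩ := Finset.mem_image.1 hw
    exact join_adm hp s v
  obtain ⟨D', hD'⟩ := part1 V' (V.image (join p s)) hW Q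
  refine ⟨D', fun p' s' hp' hs' h1' h2' a b hab hZ => ?_⟩
  set r : List ℕ → List Bool := Function.invFunOn (join p s) V with hr
  have hrv : ∀ v ∈ V, r (join p s v) = v := by
    intro v hv
    have h2 : ∃ u ∈ (V : Set (List Bool)), join p s u = join p s v := ⟨v, hv, rfl⟩
    exact hinj (Function.invFunOn_mem h2) hv (Function.invFunOn_eq h2)
  have he : element (V.image (join p s)) V' p' s' (fun w v' => a (r w) v') (fun w v' => b (r w) v') =
      product V V' p s p' s' a b := by
    rw [element, Finset.sum_image hinj, product]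
    exact Finset.sum_congr rfl fun v hv => by rw [hrv v hv]
  have h3 := (hD' p' s' hp' hs' h1' h2' (fun w v' => a (r w) v') (fun w v' => b (r w) v') (fun w hw v' hv' => by
    obtain ⟨v, hv, rfl⟩ := Finset.mem_image.1 hw
    rw [hrv v hv]
    exact hab v hv v' hv')).1 (by rw [he]; exact hZ)
  have h4 : ∀ v' ∈ V', ∀ v ∈ V, a v v' + b v v' = 0 := by
    intro v' hv'
    refine hD p s hp hs h1 h2 (fun v => a v v' + b v v') (fun v hv => adds (hab v hv v' hv').1 (hab v hv v' hv').2) ?_
    have h5 := h3 v' hv'
    rw [Z_combination hW, Finset.sum_image hinj] at h5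
    rw [← h5]
    exact Finset.sum_congr rfl fun v hv => by rw [hrv v hv]
  rw [product]
  refine Finset.sum_congr rfl fun v hv => Finset.sum_congr rfl fun v' hv' => ?_
  have h5 : b v v' = -a v v' := by
    have := h4 v' hv' v hv
    linarith
  rw [h5, doubleShuffle, smul_sub, neg_smul, neg_smul]
  abel

/-- **Theorem.** For a word `p` in `x`, `y` which begins with `x` and a word `s` which ends with `y`, let
`least p s = min(X, Y)` and `greatest p s = max(X, Y)`, `X` the number of the letters `x` of `p`, `Y` the number of the letters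
`y` of `s`. Let `V`, `V'` be finite sets of words in `x`, `y`.

1. For all finite sets `W` of admissible indices and all `Q` there is a `D` such that for all words `p` beginning with `x` and
`s` ending with `y` with `least p s ≥ D` and `greatest p s ≥ (least p s) ^ D`, and all integers `a`, `b` of absolute value at most
`Q`: `Z f = 0` for `f = ∑ a_{w,v} (w * p v s) + b_{w,v} (w sh p v s)` if and only if `Z h_v = 0` for all `v ∈ V`,
`h_v = ∑_w (a + b)_{w,v} w`.

2. For all `J` there are `κ, γ > 0` and `B`, `M` such that for all `p` and `s` as above with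
`(least p s) ^ B ≤ κ greatest p s` and all integers `a`, `b` of absolute value at most `κ (least p s) ^ γ`, the element
`f = ∑_{j ≤ J, v ∈ V} a_{j,v} ((xy)^j * p v s) + b_{j,v} ((xy)^j sh p v s)` is the integer combination
`- ∑ a_{j,v} ((xy)^j sh p v s - (xy)^j * p v s)` of double shuffle elements, with `Z f = 0`, or
`|Z f| ≥ κ (least p s) ^ (-B) Z(p y^M x^M s) > 0`.

3. For all `Q` there is a `D` such that for all `p` and `s` with `least p s ≥ D` and `greatest p s ≥ (least p s) ^ D` there
is for all `V'` a `D'` such that for all `p'` and `s'` with `least p' s' ≥ D'` and `greatest p' s' ≥ (least p' s') ^ D'` and all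
integers `a`, `b` of absolute value at most `Q`: if `Z f = 0` for
`f = ∑ a_{v,v'} (p v s * p' v' s') + b_{v,v'} (p v s sh p' v' s')`, then `f` is the integer combination
`- ∑ a_{v,v'} (p v s sh p' v' s' - p v s * p' v' s')` of double shuffle elements. -/
theorem result :
    (∀ (V : Finset (List Bool)) (W : Finset (List ℕ)), (∀ w ∈ W, AdmissibleIndex w) → ∀ Q : ℝ,
      ∃ D : ℕ, ∀ p s : List Bool, BeginsX p → EndsY s → D ≤ least p s → least p s ^ D ≤ greatest p s →
        ∀ a b : List ℕ → List Bool → ℤ, (∀ w ∈ W, ∀ v ∈ V, |(a w v : ℝ)| ≤ Q ∧ |(b w v : ℝ)| ≤ Q) →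
          (Z (element W V p s a b) = 0 ↔ ∀ v ∈ V, Z (combination W fun w => a w v + b w v) = 0)) ∧
    (∀ (V : Finset (List Bool)) (J : ℕ), ∃ κ γ : ℝ, 0 < κ ∧ 0 < γ ∧ ∃ B M : ℕ,
      ∀ p s : List Bool, BeginsX p → EndsY s → (least p s : ℝ) ^ B ≤ κ * greatest p s →
        ∀ a b : ℕ → List Bool → ℤ,
        (∀ j ≤ J, ∀ v ∈ V, |(a j v : ℝ)| ≤ κ * (least p s : ℝ) ^ γ ∧ |(b j v : ℝ)| ≤ κ * (least p s : ℝ) ^ γ) →
          (powers J V p s a b =
              ∑ j ∈ Finset.range (J + 1), ∑ v ∈ V, (-a j v) • doubleShuffle (List.replicate j 2) (join p s v) ∧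
            Z (powers J V p s a b) = 0) ∨
          (0 < mzv (join p s (List.replicate M true ++ List.replicate M false)) ∧
            κ * ((least p s : ℝ) ^ B)⁻¹ * mzv (join p s (List.replicate M true ++ List.replicate M false)) ≤
              |Z (powers J V p s a b)|)) ∧
    (∀ (V : Finset (List Bool)) (Q : ℝ), ∃ D : ℕ, ∀ p s : List Bool, BeginsX p → EndsY s →
      D ≤ least p s → least p s ^ D ≤ greatest p s → ∀ V' : Finset (List Bool), ∃ D' : ℕ, ∀ p' s' : List Bool,
      BeginsX p' → EndsY s' → D' ≤ least p' s' → least p' s' ^ D' ≤ greatest p' s' →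
        ∀ a b : List Bool → List Bool → ℤ, (∀ v ∈ V, ∀ v' ∈ V', |(a v v' : ℝ)| ≤ Q ∧ |(b v v' : ℝ)| ≤ Q) →
          Z (product V V' p s p' s' a b) = 0 →
            product V V' p s p' s' a b =
              ∑ v ∈ V, ∑ v' ∈ V', (-a v v') • doubleShuffle (join p s v) (join p' s' v')) :=
  ⟨part1, part2, part3⟩

end Pool.Agent.Results.MP_154526_nt.TwoSidedContexts
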